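import Pool.Agent.MP_96f5a9_co.h36.CaseC

/-!
Bounded generators: the choice of the scale and of the constants.
-/

set_option autoImplicit false

namespace Pool.Agent.MP_96f5a9_co.H36

open Finset Function H51 H16 H59 H93 H80 WA

lemma sum_win (y : ℕ → ℝ) (hy : Monotone y) (x : ℝ) (L : ℕ) (Q : ℕ → Prop) [DecidablePred Q]
    (hQ : ∀ j, Q j → y j ≤ x ∧ x < y (j + 1)) {v : ℝ} (hv : 0 ≤ v) :
    ∑ j ∈ range L, (if Q j then v else 0) ≤ v := by
  rw [← sum_filter, sum_const, nsmul_eq_mul]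
  have h : ∀ a b, Q a → Q b → ¬ a < b := fun a b ha hb e => by
    linarith [(hQ a ha).2, (hQ b hb).1, hy (Nat.succ_le_of_lt e)]
  have h1 : ((range L).filter Q).card ≤ 1 := card_le_one.2 fun a ha b hb =>
    le_antisymm (not_lt.1 (h b a (mem_filter.1 hb).2 (mem_filter.1 ha).2))
      (not_lt.1 (h a b (mem_filter.1 ha).2 (mem_filter.1 hb).2))
  exact mul_le_of_le_one_left hv (by exact_mod_cast h1)

variable {ι : Type} [Fintype ι] [DecidableEq ι] {g : ι → ℕ} {T : Finset (ι → ℕ)} {m F : ℕ}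

/-- The cost of the scale `G1`. -/
noncomputable def cost (g : ι → ℕ) (T : Finset (ι → ℕ)) (m M G1 G2 : ℕ) : ℝ :=
  4 * ((univ.filter fun k => ¬ g k ≤ G1 * m ∧ g k < G2 * m).card * ∑ z ∈ T, aa g M m z) +
    2 * ((M : ℝ) / m) * ∑ z ∈ T, if G2 ≤ aa g M m z + G1 ∧ aa g M m z < G2 then aa g M m z else 0

theorem scale (hd : Md g T m F) {c K E G1 R D : ℕ} (hK : 1 ≤ K) (hE : E = 294912 * K ^ 3)
    (hG : 1 ≤ G1) (hR : R = 2 * (c + 1) * E) (hm : 3 * E ≤ m) (hp : 0 < Fintype.card ι)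
    (half : Fintype.card ι ≤ 2 * (univ.filter fun i => g i ≤ G1 * m).card)
    (hn : ∑ z ∈ T, aa g (F + m) m z ≤ c * m) (hD : D * m ≤ F + m)
    (hD1 : 144 * ((G1 * (R + 1)) ^ 3 * E ^ 3) ≤ D) (hD2 : R ≤ D)
    (hA : F + m ≤ K * ∑ i, Ad g T (F + m) m i) :
    ((F + m : ℕ) : ℝ) + 8 * ((F + m : ℕ) / E) ≤ Fintype.card ι * ∑ z ∈ T, aa g (F + m) m z +
      cost g T m (F + m) G1 (G1 * (R + 1)) := by
  have K1 : (1 : ℝ) ≤ K := by exact_mod_cast hK
  have K0 : (0 : ℝ) < K := by linarith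
  have E1 : 0 < E := by rw [hE]; positivity
  have E0 : (0 : ℝ) < E := Nat.cast_pos.2 E1
  have m0 : (0 : ℝ) < m := Nat.cast_pos.2 hd.pos
  have eE : (E : ℝ) = 294912 * K ^ 3 := by rw [hE]; push_cast; ring
  have eR : (R : ℝ) = 2 * (c + 1) * E := by rw [hR]; push_cast; ring
  have c0 : (0 : ℝ) ≤ c := Nat.cast_nonneg _
  have G1' : (1 : ℝ) ≤ G1 := by exact_mod_cast hG
  have R1 : 2 * (E : ℝ) ≤ R := by rw [eR]; nlinarith
  obtain ⟨θ, hθ⟩ : ∃ θ : ℝ, θ = 1 / (18432 * K ^ 2) := ⟨_, rfl⟩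
  obtain ⟨σ, hσ⟩ : ∃ σ : ℝ, σ = 1 / (96 * K) := ⟨_, rfl⟩
  have t0 : 0 ≤ θ := by rw [hθ]; positivity
  have s0 : 0 < σ := by rw [hσ]; positivity
  have ts : θ ≤ σ := by
    rw [hθ, hσ]
    exact one_div_le_one_div_of_le (by positivity) (by nlinarith)
  have t1 : θ ≤ 1 / 2 := by
    rw [hθ]
    exact one_div_le_one_div_of_le (by norm_num) (by nlinarith)
  obtain ⟨pc, pb, pd, hpr⟩ := pair_mix t0 t1 s0
  obtain ⟨w, hw⟩ : ∃ w, w = m / (3 * E) := ⟨_, rfl⟩
  have w1 : 0 < w := hw ▸ Nat.div_pos hm (by omega)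
  have w2 : w * (3 * E) ≤ m := hw ▸ Nat.div_mul_le_self _ _
  have w3 : m ≤ 2 * (w * (3 * E)) := by
    have a1 := Nat.div_add_mod m (3 * E)
    have a2 := Nat.mod_lt m (show 0 < 3 * E by omega)
    have a3 : 1 * (3 * E) ≤ w * (3 * E) := Nat.mul_le_mul_right _ w1
    rw [← hw, mul_comm] at a1
    omega
  obtain ⟨G2, hG2⟩ : ∃ G2, G2 = G1 * (R + 1) := ⟨_, rfl⟩
  rw [← hG2] at hD1 ⊢
  have eG : (G2 : ℝ) = G1 * (R + 1) := by rw [hG2]; push_cast; ring
  have G3 : (G1 : ℝ) + R ≤ G2 := by rw [eG]; nlinarith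
  have G4 : (0 : ℝ) < G2 := by linarith
  let P : Par ι := ⟨g, F + m, m, univ.filter fun i => g i ≤ G1 * m,
    fun i => m + w * ((g i - m) / w), 2 * G2 * E, G2, θ, pc, pb, pd⟩
  have H : P.Ok σ (1 / (3 * E)) G1 := by
    refine ⟨hd.pos, hd.le, fun i hi => ?_, card_pos.1 (by show 0 < (univ.filter _).card; omega),
      half, t0, t1, ts, s0, by positivity, ?_, by exact_mod_cast G4, hpr⟩
    · have a1 := Nat.div_add_mod (g i - m) w
      have a2 := Nat.mod_lt (g i - m) w1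
      have a3 := hd.le i
      have a4 : g i ≤ m + w * ((g i - m) / w) + w := by omega
      have a5 : (w : ℝ) ≤ 1 / (3 * E) * m := by
        rw [one_div, inv_mul_eq_div, le_div_iff₀ (by positivity)]
        exact_mod_cast w2
      refine ⟨Nat.le_add_right _ _, show m + w * ((g i - m) / w) ≤ g i by omega, ?_,
        (mem_filter.1 hi).2⟩
      have a6 : (g i : ℝ) ≤ (m + w * ((g i - m) / w) : ℕ) + w := by exact_mod_cast a4
      exact a6.trans (add_le_add le_rfl a5)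
    · have : 0 < G2 := by exact_mod_cast G4
      show 0 < 2 * G2 * E
      positivity
  have hJ : P.J.card ≤ G1 * (2 * (3 * E)) := by
    have : P.J ⊆ (range (G1 * (2 * (3 * E)))).image fun t => m + w * t := fun t ht => by
      obtain ⟨i, hi, rfl⟩ := mem_image.1 ht
      refine mem_image.2 ⟨(g i - m) / w, mem_range.2 ((Nat.div_lt_iff_lt_mul w1).2 ?_), rfl⟩
      have a1 : g i ≤ G1 * m := (mem_filter.1 hi).2
      have a2 := Nat.mul_le_mul_left G1 w3
      have a3 := hd.pos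
      have a4 := hd.le i
      have a5 : G1 * (2 * (w * (3 * E))) = G1 * (2 * (3 * E)) * w := by ring
      omega
    exact (card_le_card this).trans (card_image_le.trans (card_range _).le)
  have core := H.core hd rfl (by linarith : (0 : ℝ) < R) G3
  have eN : P.N = univ.filter fun k => ¬ g k ≤ G1 * m ∧ g k < G2 * m :=
    filter_congr fun k _ => by simp [P]
  rw [eN] at core
  simp only [P, Par.a] at core
  unfold cost
  obtain ⟨M, hM⟩ : ∃ M : ℝ, M = (F + m : ℕ) := ⟨_, rfl⟩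
  have hA' : M ≤ K * (∑ i, Ad g T (F + m) m i : ℕ) := by rw [hM]; exact_mod_cast hA
  have hD' : (D : ℝ) * m ≤ M := by rw [hM]; exact_mod_cast hD
  have hD1' : 144 * ((G2 : ℝ) ^ 3 * E ^ 3) ≤ D := by exact_mod_cast hD1
  have hD2' : (R : ℝ) ≤ D := by exact_mod_cast hD2
  have hJ' : (P.J.card : ℝ) ≤ G1 * (2 * (3 * E)) := by exact_mod_cast hJ
  have hm' : 3 * (E : ℝ) ≤ m := by exact_mod_cast hm
  have M0 : 0 ≤ M := hM ▸ Nat.cast_nonneg _
  rw [← hM] at core ⊢
  generalize ∑ z ∈ T, aa g (F + m) m z = n at *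
  generalize ((∑ i, Ad g T (F + m) m i : ℕ) : ℝ) = A at *
  have a0 : 16 * (M / E) ≤ θ * A := by
    have e : 16 * (M / E) = θ * (M / K) := by rw [hθ, eE]; field_simp; ring
    rw [e]
    exact mul_le_mul_of_nonneg_left ((div_le_iff₀' K0).2 hA') t0
  have a1 : 2 * (n + m) ≤ M / E := by
    rw [le_div_iff₀ E0]
    have b1 := mul_le_mul_of_nonneg_right hD2' m0.le
    have b2 := mul_le_mul_of_nonneg_right hn E0.le
    rw [eR] at b1
    linarith
  have a2 : M * (12 * θ ^ 2 / σ) = M / E := by rw [hθ, hσ, eE]; field_simp; ring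
  have a3 : M * (3 * (1 / (3 * E))) = M / E := by field_simp
  have a4 : M * (2 / G2) ≤ M / E := by
    rw [div_eq_mul_one_div M]
    refine mul_le_mul_of_nonneg_left ?_ M0
    rw [div_le_div_iff₀ G4 E0]
    linarith
  have a5 : M * (2 * G2 / (2 * G2 * E : ℕ)) = M / E := by push_cast; field_simp
  have a6 : M / m * (3 * θ * (σ * m + 1)) ≤ M / E := by
    have b1 : 1 ≤ σ * m := by
      rw [hσ, one_div, inv_mul_eq_div, le_div_iff₀ (by positivity)]
      have : K * 1 ≤ (K : ℝ) * K ^ 2 := mul_le_mul_of_nonneg_left (by nlinarith) K0.le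
      linarith
    have b2 : M / m * (3 * θ * (σ * m + 1)) ≤ M / m * (3 * θ * (σ * m + σ * m)) :=
      mul_le_mul_of_nonneg_left (mul_le_mul_of_nonneg_left (by linarith) (by linarith))
        (by positivity)
    refine b2.trans (le_of_eq ?_)
    rw [hθ, hσ, eE]; field_simp; ring
  have a7 : m * (P.J.card * ((2 * G2 * E : ℕ) * (12 * (G1 : ℝ)))) ≤ M / E := by
    rw [le_div_iff₀ E0]
    have b0 : (G1 : ℝ) ≤ G2 := by linarith
    have b1 : (P.J.card : ℝ) * ((2 * G2 * E : ℕ) * (12 * (G1 : ℝ))) ≤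
        G2 * (2 * (3 * E)) * ((2 * G2 * E : ℕ) * (12 * (G2 : ℝ))) :=
      mul_le_mul (hJ'.trans (mul_le_mul_of_nonneg_right b0 (by positivity)))
        (mul_le_mul_of_nonneg_left (by linarith) (Nat.cast_nonneg _)) (by positivity) (by positivity)
    have b2 := mul_le_mul_of_nonneg_left b1 (mul_pos m0 E0).le
    have b3 := mul_le_mul_of_nonneg_right hD1' m0.le
    push_cast at b2 ⊢
    linarith
  have a8 : 2 * (M / m) / R * n ≤ M / E := by
    have R0 : (0 : ℝ) < R := by linarith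
    have b1 : 2 * (M / m) / R * n ≤ 2 * (M / m) / R * ((c + 1) * m) :=
      mul_le_mul_of_nonneg_left (by linarith) (by positivity)
    refine b1.trans (le_of_eq ?_)
    rw [eR]; field_simp
  simp only [P] at a7
  linarith

omit [DecidableEq ι] in
theorem pigeon {M G R L : ℕ} (hR : 1 ≤ R) :
    ∑ j ∈ range L, cost g T m M (G * (R + 1) ^ j) (G * (R + 1) ^ j * (R + 1)) ≤
      4 * (Fintype.card ι * ∑ z ∈ T, aa g M m z) + 2 * ((M : ℝ) / m) * ∑ z ∈ T, aa g M m z := by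
  have hy : Monotone fun j => G * (R + 1) ^ j := fun a b h =>
    Nat.mul_le_mul_left _ (Nat.pow_le_pow_right (by omega) h)
  have n0 : 0 ≤ ∑ z ∈ T, aa g M m z := sum_nonneg fun z _ => aa_nonneg z
  simp only [cost, sum_add_distrib, ← mul_sum, ← sum_mul]
  refine add_le_add (mul_le_mul_of_nonneg_left (mul_le_mul_of_nonneg_right ?_ n0) (by norm_num))
    (mul_le_mul_of_nonneg_left ?_ (by positivity))
  · simp only [card_filter, Nat.cast_sum, Nat.cast_ite, Nat.cast_one, Nat.cast_zero]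
    rw [sum_comm, ← card_univ, card_eq_sum_ones, Nat.cast_sum]
    refine sum_le_sum fun k _ => ?_
    rw [Nat.cast_one]
    refine sum_win (fun j => ((G * (R + 1) ^ j * m : ℕ) : ℝ))
      (fun a b h => Nat.cast_le.2 (Nat.mul_le_mul_right _ (hy h))) (g k) L _ (fun j hj => ?_)
      zero_le_one
    rw [pow_succ, ← mul_assoc]
    exact ⟨Nat.cast_le.2 (not_le.1 hj.1).le, Nat.cast_lt.2 hj.2⟩
  · rw [sum_comm]
    refine sum_le_sum fun z _ => ?_
    refine sum_win (fun j => ((G * (R + 1) ^ j : ℕ) : ℝ)) (fun a b h => Nat.cast_le.2 (hy h))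
      (aa g M m z) L _ (fun j hj => ?_) (aa_nonneg z)
    rw [pow_succ, ← mul_assoc]
    refine ⟨?_, hj.2⟩
    have a1 : G * (R + 1) ^ j * 2 ≤ G * (R + 1) ^ j * (R + 1) := Nat.mul_le_mul_left _ (by omega)
    have a2 : ((G * (R + 1) ^ j : ℕ) : ℝ) * 2 ≤ (G * (R + 1) ^ j * (R + 1) : ℕ) := by
      exact_mod_cast a1
    linarith [hj.1]

/-- The case of a bounded median. -/
theorem caseI : IStmt := by
  intro c K G
  obtain ⟨E, hE⟩ : ∃ E, E = 294912 * K ^ 3 := ⟨_, rfl⟩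
  obtain ⟨R, hR⟩ : ∃ R, R = 2 * (c + 1) * E := ⟨_, rfl⟩
  refine ⟨144 * ((G * (R + 1) ^ R) ^ 3 * E ^ 3) + R, 3 * E + 1, ?_⟩
  intro ι _ _ g T m F s hd hp hpm hs hc hG hD hA
  by_contra hW
  have hn := (not_wilf hW).2
  have m0 := hd.pos
  have hms : m ≤ s := by
    obtain ⟨i, hi⟩ := card_pos.1 (show 0 < (univ.filter fun i => g i ≤ s).card by
      have := hs.1; omega)
    exact (hd.le i).trans (mem_filter.1 hi).2
  have hK : 1 ≤ K := Nat.pos_of_ne_zero fun e => by rw [e] at hA; omega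
  have hG1 : 1 ≤ G := Nat.pos_of_ne_zero fun e => by rw [e] at hG; omega
  have E1 : 0 < E := by rw [hE]; positivity
  have R1 : 1 ≤ R := by rw [hR]; exact Nat.mul_pos (by omega) E1
  have hn1 : ∑ x ∈ T, (F + m - wt g x) / m ≤ c * m := by
    refine Nat.le_of_mul_le_mul_left (hn.trans (hc.trans (le_of_eq ?_))) (by omega : 0 < _)
    ring
  have hn2 : ∑ z ∈ T, aa g (F + m) m z ≤ c * m := by rw [← cast_n]; exact_mod_cast hn1
  have hn3 : Fintype.card ι * ∑ z ∈ T, aa g (F + m) m z ≤ (F + m : ℕ) := by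
    rw [← cast_n]; exact_mod_cast hn
  have h1 : ∀ j ∈ range R, 8 * (((F + m : ℕ) : ℝ) / E) ≤
      cost g T m (F + m) (G * (R + 1) ^ j) (G * (R + 1) ^ j * (R + 1)) := fun j hj => by
    have a1 : G * 1 ≤ G * (R + 1) ^ j := Nat.mul_le_mul_left _ (Nat.one_le_pow _ _ (by omega))
    have a2 : G * (R + 1) ^ j * (R + 1) ≤ G * (R + 1) ^ R := by
      rw [mul_assoc, ← pow_succ]
      exact Nat.mul_le_mul_left _ (Nat.pow_le_pow_right (by omega) (mem_range.1 hj))
    have := scale hd hK hE (by omega : 1 ≤ G * (R + 1) ^ j) hR (by omega) (by omega)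
      (hs.1.trans (Nat.mul_le_mul_left _ (card_le_card fun i hi => mem_filter.2 ⟨mem_univ _,
        (mem_filter.1 hi).2.trans (hG.trans (Nat.mul_le_mul_right _ (by omega)))⟩)))
      hn2 ((Nat.mul_le_mul_left _ hms).trans hD)
      ((Nat.mul_le_mul_left _ (Nat.mul_le_mul_right _ (Nat.pow_le_pow_left a2 3))).trans
        (Nat.le_add_right _ _)) (Nat.le_add_left _ _) hA
    linarith
  have h2 := (sum_le_sum h1).trans (pigeon R1)
  rw [sum_const, card_range, nsmul_eq_mul] at h2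
  have E0 : (0 : ℝ) < E := Nat.cast_pos.2 E1
  have m1 : (0 : ℝ) < m := Nat.cast_pos.2 m0
  have M0 : (0 : ℝ) < (F + m : ℕ) := Nat.cast_pos.2 (by omega)
  have e1 : (R : ℝ) * (8 * (((F + m : ℕ) : ℝ) / E)) = 16 * (c + 1) * (F + m : ℕ) := by
    rw [hR]; push_cast; field_simp; ring
  have e2 : 2 * (((F + m : ℕ) : ℝ) / m) * (c * m) = 2 * c * (F + m : ℕ) := by field_simp
  have h3 := mul_le_mul_of_nonneg_left hn2 (by positivity : 0 ≤ 2 * (((F + m : ℕ) : ℝ) / m))
  have h4 : 0 ≤ (c : ℝ) * (F + m : ℕ) := by positivity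
  linarith

end Pool.Agent.MP_96f5a9_co.H36
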