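import Pool.Agent.MP_96f5a9_co.h93.Soft

/-!
The arithmetic gain: blocked directions at non-top points carry a fixed share of the total degree.
-/

set_option autoImplicit false

namespace Pool.Agent.MP_96f5a9_co.H36

open Finset Function H51 H16 H93

variable {ι : Type} [Fintype ι] [DecidableEq ι] {g : ι → ℕ} {T : Finset (ι → ℕ)} {m M : ℕ}

omit [Fintype ι] [DecidableEq ι] in
lemma le_two_floor {m x : ℕ} (hm : 0 < m) (h : m ≤ x) : x ≤ 2 * (m * (x / m)) := by
  have h1 := Nat.div_add_mod x m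
  have h2 := Nat.mod_lt x hm
  have h3 : m * 1 ≤ m * (x / m) := Nat.mul_le_mul_left _ (Nat.div_pos h hm)
  omega

/-- Sums over the ends of the `i`-lines are sums over blocked points. -/
lemma sum_top (hT : ∀ x ∈ T, ∀ y, y ≤ x → y ∈ T) (i : ι) (φ : (ι → ℕ) → ℕ) :
    ∑ t ∈ T, φ (top T i t) = ∑ y ∈ T.filter (fun y => y + ee i ∉ T), (y i + 1) * φ y := by
  have hd : ∀ t ∈ T, top T i t + ee i ∉ T := fun t _ d => by
    have := le_ht_of_live (l := 1) d
    simp only [top, update_self, ht_update] at this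
    omega
  rw [← sum_fiberwise_of_maps_to (s := T) (t := T.filter fun y => y + ee i ∉ T)
    (g := fun t => top T i t) fun t h => mem_filter.2 ⟨top_mem i h, hd t h⟩]
  refine sum_congr rfl fun y hy => ?_
  obtain ⟨a1, a2⟩ := mem_filter.1 hy
  have a3 := top_eq_of_dead hT a1 a2
  have a4 : ht T i y = y i := by
    have := congrFun a3 i
    simpa [top] using this
  rw [sum_congr rfl (g := fun _ => φ y) fun t h => by rw [(mem_filter.1 h).2], sum_const,
    smul_eq_mul]
  congr 1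
  rw [← card_range (y i + 1)]
  refine card_nbij' (fun t => t i) (fun k => update y i k) (fun t h => ?_) (fun k h => ?_)
    (fun t h => ?_) fun k _ => by simp
  · simp only [coe_filter, Set.mem_ofPred_eq] at h
    have b1 := le_ht i h.1
    have b2 := congrFun h.2 i
    simp only [top, update_self] at b2
    simp only [coe_range, Set.mem_Iio]
    omega
  · simp only [coe_range, Set.mem_Iio] at h
    simp only [coe_filter, Set.mem_ofPred_eq]
    refine ⟨update_mem hT i a1 (by omega), ?_⟩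
    rw [← a3]
    simp only [top, ht_update, update_idem]
  · simp only [coe_filter, Set.mem_ofPred_eq] at h
    rw [← h.2]
    simp [top]

/-- Every direction carries little weight. -/
lemma coord_le (hm : 0 < m) (hg : ∀ i, m ≤ g i) (hT : ∀ x ∈ T, ∀ y, y ≤ x → y ∈ T)
    (hM : ∀ x ∈ T, wt g x ≤ M) (i : ι) :
    (∑ t ∈ T, t i) * g i ≤ 2 * (m * ∑ t ∈ T, (M - wt g t) / m) := by
  have h1 : ∑ t ∈ T, (gp g T M i t + ht T i t * g i) = ∑ t ∈ T, (M - wt g t + t i * g i) :=
    sum_congr rfl fun t h => gp_add hM h i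
  rw [sum_add_distrib, sum_add_distrib, ← sum_mul, ← sum_mul, sum_ht hT i] at h1
  have h2 : ∑ t ∈ T, (M - wt g t) ≤ ∑ t ∈ T, (gp g T M i t + 2 * (m * ((M - wt g t) / m))) := by
    refine sum_le_sum fun t h => ?_
    by_cases c : t + ee i ∈ T
    · have a1 := hM _ c
      have a2 := hg i
      rw [wt_ee] at a1
      exact (le_two_floor hm (by omega)).trans (Nat.le_add_left _ _)
    · rw [gp, top_eq_of_dead hT h c]
      omega
  rw [sum_add_distrib, ← mul_sum, ← mul_sum] at h2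
  nlinarith

lemma top_le (hm : 0 < m) (hg : ∀ i, m ≤ g i) (hT : ∀ x ∈ T, ∀ y, y ≤ x → y ∈ T)
    (hcard : T.card = m) (hM : ∀ x ∈ T, wt g x ≤ M) :
    M ≤ (2 * Fintype.card ι + 1) * ∑ t ∈ T, (M - wt g t) / m + m := by
  have h1 : m * M = ∑ t ∈ T, (wt g t + (M - wt g t)) := by
    rw [sum_congr rfl fun t h => Nat.add_sub_cancel' (hM t h), sum_const, hcard, smul_eq_mul]
  have h2 : ∑ t ∈ T, wt g t ≤ Fintype.card ι * (2 * (m * ∑ t ∈ T, (M - wt g t) / m)) := by
    unfold wt
    rw [sum_comm, ← card_univ, ← smul_eq_mul, ← sum_const]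
    refine sum_le_sum fun i _ => ?_
    rw [← sum_mul]
    exact coord_le hm hg hT hM i
  have h3 : ∑ t ∈ T, (M - wt g t) ≤ ∑ t ∈ T, (m * ((M - wt g t) / m) + m) := by
    refine sum_le_sum fun t _ => ?_
    have := Nat.div_add_mod (M - wt g t) m
    have := Nat.mod_lt (M - wt g t) hm
    omega
  rw [sum_add_distrib, ← mul_sum, sum_const, hcard, smul_eq_mul] at h3
  rw [sum_add_distrib] at h1
  refine Nat.le_of_mul_le_mul_left ?_ hm
  nlinarith

/-- Points shallower than the median generator are blocked in half of the directions. -/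
lemma low' (hT : ∀ x ∈ T, ∀ y, y ≤ x → y ∈ T) (hM : ∀ x ∈ T, wt g x ≤ M) (x : ℕ)
    (hs : Fintype.card ι ≤ 2 * (univ.filter fun i => x ≤ g i).card) :
    Fintype.card ι * ∑ t ∈ T.filter (fun t => ¬ x ≤ M - wt g t), (M - wt g t) / m ≤
      2 * ∑ i, ∑ t ∈ T, gp g T M i t / m := by
  set I := univ.filter fun i => x ≤ g i with hI
  set R := ∑ t ∈ T.filter (fun t => ¬ x ≤ M - wt g t), (M - wt g t) / m with hR
  have h1 : ∑ _i ∈ I, R ≤ ∑ i ∈ I, ∑ t ∈ T, gp g T M i t / m := by
    refine sum_le_sum fun i hi => le_trans (sum_le_sum fun t h => ?_)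
      (sum_le_sum_of_subset (filter_subset _ _))
    obtain ⟨a1, a2⟩ := mem_filter.1 h
    have a3 : t + ee i ∉ T := fun c => by
      have := hM _ c
      have := (mem_filter.1 hi).2
      rw [wt_ee] at *
      omega
    rw [gp, top_eq_of_dead hT a1 a3]
  rw [sum_const, smul_eq_mul] at h1
  have h2 : ∑ i ∈ I, ∑ t ∈ T, gp g T M i t / m ≤ ∑ i, ∑ t ∈ T, gp g T M i t / m :=
    sum_le_sum_of_subset (subset_univ _)
  have h4 : Fintype.card ι * R ≤ 2 * I.card * R := Nat.mul_le_mul_right _ hs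
  rw [mul_assoc] at h4
  omega

lemma tail_one' (hm : 0 < m) (hT : ∀ x ∈ T, ∀ y, y ≤ x → y ∈ T) (hM : ∀ x ∈ T, wt g x ≤ M)
    {x : ℕ} (hx : m ≤ x) (i : ι) :
    ∑ t ∈ deep g T M x, (M - wt g t) ≤ 2 * (m * ∑ t ∈ T, gp g T M i t / m) +
      (deep g T M x).card * (x + g i) + ∑ t ∈ deep g T M x, t i * g i := by
  set X := deep g T M x with hX
  have hXT : X ⊆ T := filter_subset _ _
  have hXM : ∀ t ∈ X, wt g t ≤ M := fun t h => hM t (hXT h)
  have h1 : ∑ t ∈ X, (gp g X M i t + ht X i t * g i) = ∑ t ∈ X, (M - wt g t + t i * g i) :=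
    sum_congr rfl fun t h => gp_add hXM h i
  rw [sum_add_distrib, sum_add_distrib, ← sum_mul, ← sum_mul, sum_ht (deep_ideal hT x) i] at h1
  have h2 : ∑ t ∈ X, gp g X M i t ≤ ∑ t ∈ X, (2 * (m * (gp g T M i t / m)) + (x + g i)) := by
    refine sum_le_sum fun t h => ?_
    have a1 := top_mem i h
    by_cases c : top X i t + ee i ∈ T
    · have a2 : top X i t + ee i ∉ X := fun d => by
        have := le_ht_of_live (l := 1) d
        simp only [top, update_self, ht_update] at this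
        omega
      have a3 : ¬ x ≤ M - wt g (top X i t + ee i) := fun d => a2 (mem_filter.2 ⟨c, d⟩)
      rw [wt_ee] at a3
      unfold gp
      omega
    · have a2 := top_eq_of_dead hT (hXT a1) c
      have a3 : top T i (top X i t) = top T i t := by
        simp only [top, ht_update, update_idem]
      have a4 : gp g T M i t = gp g X M i t := by
        unfold gp
        rw [← a3, a2]
      have a5 : m ≤ gp g X M i t := hx.trans (mem_filter.1 a1).2
      rw [a4]
      exact (le_two_floor hm a5).trans (Nat.le_add_right _ _)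
  rw [sum_add_distrib, sum_const, smul_eq_mul, ← mul_sum, ← mul_sum] at h2
  have h3 : m * ∑ t ∈ X, gp g T M i t / m ≤ m * ∑ t ∈ T, gp g T M i t / m :=
    Nat.mul_le_mul_left _ (sum_le_sum_of_subset hXT)
  rw [← sum_mul]
  nlinarith

lemma tail' (hm : 0 < m) (hT : ∀ x ∈ T, ∀ y, y ≤ x → y ∈ T) (hM : ∀ x ∈ T, wt g x ≤ M)
    {x : ℕ} (hx : m ≤ x) (s : ℕ) (hs : Fintype.card ι ≤ 2 * (univ.filter fun i => g i ≤ s).card) :
    Fintype.card ι * ∑ t ∈ deep g T M x, (M - wt g t) ≤
      4 * (m * ∑ i, ∑ t ∈ T, gp g T M i t / m) +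
      Fintype.card ι * ((deep g T M x).card * (x + s)) + 2 * (M * (deep g T M x).card) := by
  set I := univ.filter fun i => g i ≤ s with hI
  set X := deep g T M x with hX
  set R := ∑ t ∈ X, (M - wt g t)
  set c := X.card * (x + s)
  have h1 : ∑ _i ∈ I, (R - c) ≤
      ∑ i ∈ I, (2 * (m * ∑ t ∈ T, gp g T M i t / m) + ∑ t ∈ X, t i * g i) := by
    refine sum_le_sum fun i hi => ?_
    have a1 := tail_one' hm hT hM hx i
    have a2 : X.card * (x + g i) ≤ c :=
      Nat.mul_le_mul_left _ (Nat.add_le_add_left (mem_filter.1 hi).2 _)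
    rw [← hX] at a1
    omega
  rw [sum_const, smul_eq_mul, sum_add_distrib, ← mul_sum, ← mul_sum] at h1
  have h2 : m * ∑ i ∈ I, ∑ t ∈ T, gp g T M i t / m ≤ m * ∑ i, ∑ t ∈ T, gp g T M i t / m :=
    Nat.mul_le_mul_left _ (sum_le_sum_of_subset (subset_univ _))
  have h3 : ∑ i ∈ I, ∑ t ∈ X, t i * g i ≤ M * X.card := by
    refine (sum_le_sum_of_subset (subset_univ _)).trans ?_
    rw [sum_comm, mul_comm, ← smul_eq_mul, ← sum_const]
    exact sum_le_sum fun t h => hM t (mem_filter.1 h).1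
  have h4 : Fintype.card ι * (R - c) ≤ 2 * I.card * (R - c) := Nat.mul_le_mul_right _ hs
  have h5 : Fintype.card ι * R ≤ Fintype.card ι * (R - c + c) := Nat.mul_le_mul_left _ (by omega)
  rw [mul_add] at h5
  rw [mul_assoc] at h4
  omega

/-- The layer of depth at least `x` is large once the shallower part is small. -/
lemma deep_many (hm : 0 < m) (hT : ∀ x ∈ T, ∀ y, y ≤ x → y ∈ T) (hM : ∀ x ∈ T, wt g x ≤ M)
    {x s : ℕ} (hx : m ≤ x) (hsx : s ≤ x)
    (hs : Fintype.card ι ≤ 2 * (univ.filter fun i => g i ≤ s).card) (hp : 0 < Fintype.card ι)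
    (hMx : M ≤ 19 * (Fintype.card ι * x))
    (hL : 4 * ∑ t ∈ T.filter (fun t => ¬ x ≤ M - wt g t), (M - wt g t) / m ≤
      ∑ t ∈ T, (M - wt g t) / m)
    (hA : 16 * ∑ i, ∑ t ∈ T, gp g T M i t / m ≤ Fintype.card ι * ∑ t ∈ T, (M - wt g t) / m) :
    m * ∑ t ∈ T, (M - wt g t) / m ≤ 80 * ((deep g T M x).card * x) := by
  have h1 := tail' hm hT hM hx s hs
  have h2 := sum_filter_add_sum_filter_not T (fun t => x ≤ M - wt g t) fun t => (M - wt g t) / m
  have h3 : m * ∑ t ∈ T.filter (fun t => x ≤ M - wt g t), (M - wt g t) / m ≤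
      ∑ t ∈ deep g T M x, (M - wt g t) := by
    rw [mul_sum]
    exact sum_le_sum fun t _ => Nat.mul_div_le _ _
  generalize ∑ t ∈ T.filter (fun t => x ≤ M - wt g t), (M - wt g t) / m = U at *
  generalize ∑ t ∈ T.filter (fun t => ¬ x ≤ M - wt g t), (M - wt g t) / m = L at *
  generalize ∑ t ∈ T, (M - wt g t) / m = n at *
  generalize ∑ i, ∑ t ∈ T, gp g T M i t / m = A at *
  generalize ∑ t ∈ deep g T M x, (M - wt g t) = R at *
  generalize (deep g T M x).card = N at *
  generalize Fintype.card ι = p at *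
  have a1 : m * (3 * n) ≤ m * (4 * U) := Nat.mul_le_mul_left _ (by omega)
  have a2 : p * (m * (3 * n)) ≤ p * (4 * R) := Nat.mul_le_mul_left _ (by nlinarith)
  have a3 : m * (16 * A) ≤ m * (p * n) := Nat.mul_le_mul_left _ hA
  have a4 : M * N ≤ 19 * (p * x) * N := Nat.mul_le_mul_right _ hMx
  have a5 : p * (N * (x + s)) ≤ p * (N * (x + x)) :=
    Nat.mul_le_mul_left _ (Nat.mul_le_mul_left _ (by omega))
  refine Nat.le_of_mul_le_mul_left ?_ hp
  nlinarith

lemma dead_cost' (hm : 0 < m) (hg : ∀ i, m ≤ g i) (hT : ∀ x ∈ T, ∀ y, y ≤ x → y ∈ T)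
    (hM : ∀ x ∈ T, wt g x ≤ M) {x : ℕ} (hx : m ≤ x) (k : ι) :
    ((deep g T M x).filter fun t => t + Pi.single k (x / 2 / g k + 1) ∉ T).card * x ≤
      4 * (m * ∑ t ∈ T, gp g T M k t / m) := by
  rw [← smul_eq_mul, ← sum_const, mul_sum, mul_sum]
  refine (sum_le_sum fun t ht' => ?_).trans (sum_le_sum_of_subset
    ((filter_subset _ _).trans (filter_subset _ _)))
  simp only [deep, mem_filter] at ht'
  have h1 := ht_lt_of_dead hT ht'.1.1 ht'.2
  have h2 := gp_add hM ht'.1.1 k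
  have h3 : ht T k t * g k ≤ (t k + x / 2 / g k) * g k := Nat.mul_le_mul_right _ (by omega)
  have h4 := Nat.div_mul_le_self (x / 2) (g k)
  have h5 := hg k
  rw [add_mul] at h3
  have h6 : m ≤ gp g T M k t := by
    by_cases c : x / 2 < g k
    · rw [Nat.div_eq_of_lt c] at h3
      omega
    · omega
  have h7 := le_two_floor hm h6
  omega

/-- Soft packing at scale `x`. -/
lemma pack (hm : 2 ≤ m) (hg : ∀ i, m ≤ g i) (hT : ∀ x ∈ T, ∀ y, y ≤ x → y ∈ T)
    (hinj : ∀ x ∈ T, ∀ y ∈ T, wt g x ≡ wt g y [MOD m] → x = y) (hM : ∀ x ∈ T, wt g x ≤ M)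
    {x n : ℕ} (hx : m ≤ x) (hp : 2 ≤ Fintype.card ι) (hMx : M ≤ 19 * (Fintype.card ι * x))
    (hN : m * n ≤ 80 * ((deep g T M x).card * x)) :
    Fintype.card ι * n ≤ 2 ^ 16 * x ∨
      Fintype.card ι * (n * n) ≤ 2 ^ 34 * ((∑ i, ∑ t ∈ T, gp g T M i t / m) * x) := by
  have hm0 : 0 < m := by omega
  have h1 := soft_packing g T (deep g T M x) m hm0 hinj (fun j => x / 2 / g j + 1)
    (fun _ h => (mem_filter.1 h).1)
  have h2 := small_coord (g := g) (M := M) (fun i => hm0.trans_le (hg i)) (X := deep g T M x)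
    (deep_ideal hT x) (fun t h => hM t (mem_filter.1 h).1) (y := x / 2) (κ := 171)
    (c := Fintype.card ι / 2) (by omega) (by norm_num) (by
      have a1 : Fintype.card ι * x ≤ 3 * (Fintype.card ι / 2) * (3 * (x / 2)) :=
        Nat.mul_le_mul (by omega) (by omega)
      nlinarith)
  have h3 := sum_le_sum fun k (_ : k ∈ (univ : Finset ι)) => dead_cost' hm0 hg hT hM hx k
  rw [← sum_mul, ← mul_sum, ← mul_sum] at h3
  generalize ∑ j, ((deep g T M x).filter fun t => t j < x / 2 / g j + 1).card = Z at *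
  generalize ∑ k, ((deep g T M x).filter fun t =>
    t + Pi.single k (x / 2 / g k + 1) ∉ T).card = D at *
  generalize ∑ i, ∑ t ∈ T, gp g T M i t / m = A at *
  generalize (deep g T M x).card = N at *
  generalize Fintype.card ι = p at *
  have a1 : 2 * (p / 2 * N) ≤ p * N := by
    rw [← mul_assoc]
    exact Nat.mul_le_mul_right _ (by omega)
  have a2 : p * N * x ≤ 342 * Z * x := Nat.mul_le_mul_right _ (by omega)
  have a3 : p * (m * n) ≤ 27360 * (Z * x) := by
    have := Nat.mul_le_mul_left p hN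
    nlinarith
  by_cases c : Z ≤ 2 * m
  · left
    have a4 : Z * x ≤ 2 * m * x := Nat.mul_le_mul_right _ c
    refine Nat.le_of_mul_le_mul_left ?_ hm0
    nlinarith
  · right
    have a4 : Z * (2 * m) ≤ Z * Z := Nat.mul_le_mul_left _ (by omega)
    have a5 : Z * Z ≤ 4 * (m * (p * D)) := by nlinarith
    have a6 : Z * Z * x ≤ 16 * (m * p * (m * A)) := by
      have b1 := Nat.mul_le_mul_right x a5
      have b2 := Nat.mul_le_mul_left (m * p) h3
      nlinarith
    have a7 := Nat.mul_le_mul a3 a3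
    have a8 := Nat.mul_le_mul_right x a6
    have hpos : 0 < m * m * p := by positivity
    refine Nat.le_of_mul_le_mul_left ?_ hpos
    have a9 : 0 ≤ m * m * p * (A * x) := Nat.zero_le _
    nlinarith

/-- A generator well below the median is expensive. -/
lemma small_gen (hm : 2 ≤ m) (hg : ∀ i, m ≤ g i) (hT : ∀ x ∈ T, ∀ y, y ≤ x → y ∈ T)
    (hM : ∀ x ∈ T, wt g x ≤ M) {s : ℕ} {i : ι} (hi : 4 * g i ≤ s)
    (hL : 2 ^ 24 * ∑ t ∈ T.filter (fun t => ¬ s ≤ M - wt g t), (M - wt g t) / m ≤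
      ∑ t ∈ T, (M - wt g t) / m)
    (hN : m * ∑ t ∈ T, (M - wt g t) / m ≤ 80 * ((deep g T M s).card * s)) :
    ∑ t ∈ T, (M - wt g t) / m ≤ 1920 * ∑ t ∈ T, gp g T M i t / m := by
  have hm0 : 0 < m := by omega
  have hgi := hg i
  obtain ⟨y, hy⟩ : ∃ y, y = s / 4 := ⟨_, rfl⟩
  have hmy : m ≤ y := by omega
  have h1 := window hT hM (y := y) (by omega) 4096 (i := i) (by omega) (by omega)
  have h2 : (T.filter fun t => y ≤ M - wt g t ∧ M - wt g t < 3 * y).card * y ≤
      2 * (m * ∑ t ∈ T.filter (fun t => ¬ s ≤ M - wt g t), (M - wt g t) / m) := by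
    rw [← smul_eq_mul, ← sum_const, mul_sum, mul_sum]
    refine (sum_le_sum fun t h => ?_).trans (sum_le_sum_of_subset fun t h => ?_)
    · have := (mem_filter.1 h).2.1
      exact this.trans (le_two_floor hm0 (hmy.trans this))
    · simp only [mem_filter] at h ⊢
      exact ⟨h.1, by omega⟩
  have h3 := markov T (fun t => 2 * (m * (gp g T M i t / m))) (fun t => y ≤ gp g T M i t) y
    fun t _ h => h.trans (le_two_floor hm0 (hmy.trans h))
  have h4 := markov T (fun t => 2 * (m * ((M - wt g t) / m))) (fun t => 4096 * y ≤ M - wt g t)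
    (4096 * y) fun t _ h => h.trans (le_two_floor hm0 (by omega))
  have h5 : (deep g T M s).card ≤ (deep g T M y).card := card_le_card fun t h => by
    simp only [deep, mem_filter] at h ⊢
    exact ⟨h.1, by omega⟩
  rw [← mul_sum, ← mul_sum] at h3 h4
  change (deep g T M (4096 * y)).card * _ ≤ _ at h4
  have h6 := Nat.mul_le_mul h5 (show s ≤ 6 * y by omega)
  have h7 := Nat.mul_le_mul_right y h1
  have h8 := Nat.mul_le_mul_left m hL
  generalize ∑ t ∈ T.filter (fun t => ¬ s ≤ M - wt g t), (M - wt g t) / m = L at *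
  generalize ∑ t ∈ T, (M - wt g t) / m = n at *
  generalize ∑ t ∈ T, gp g T M i t / m = A at *
  generalize (T.filter fun t => y ≤ M - wt g t ∧ M - wt g t < 3 * y).card = W at *
  generalize (T.filter fun t => y ≤ gp g T M i t).card = B at *
  generalize (deep g T M (4096 * y)).card = N2 at *
  generalize (deep g T M y).card = N1 at *
  generalize (deep g T M s).card = N at *
  refine Nat.le_of_mul_le_mul_left ?_ hm0
  nlinarith

/-- The arithmetic gain. -/
theorem gain (hm : 2 ≤ m) (hg : ∀ i, m ≤ g i) (hT : ∀ x ∈ T, ∀ y, y ≤ x → y ∈ T)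
    (hcard : T.card = m) (hinj : ∀ x ∈ T, ∀ y ∈ T, wt g x ≡ wt g y [MOD m] → x = y)
    (hM : ∀ x ∈ T, wt g x ≤ M) (hp : 2 ^ 15 ≤ Fintype.card ι) :
    min (∑ t ∈ T, (M - wt g t) / m) m * ∑ t ∈ T, dg t ≤
      2 ^ 38 * (m * ∑ i, ∑ t ∈ T, gp g T M i t / m) +
        2 ^ 19 * (m * min (∑ t ∈ T, (M - wt g t) / m) m) := by
  have hm0 : 0 < m := by omega
  have hc := coord_le hm0 hg hT hM
  have hMn := top_le hm0 hg hT hcard hM
  obtain ⟨s, hs1, hs2⟩ := exists_median g
  have hlow := low' (m := m) hT hM s hs2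
  have hms : m ≤ s := by
    obtain ⟨i, hi⟩ := card_pos.1 (show 0 < (univ.filter fun i => g i ≤ s).card by omega)
    exact (hg i).trans (mem_filter.1 hi).2
  have hmany := fun x (hx : s ≤ x) => deep_many (g := g) (M := M) hm0 hT hM (hms.trans hx) hx hs1
    (by omega)
  have hpack := fun x (hx : s ≤ x) => pack (n := ∑ t ∈ T, (M - wt g t) / m) hm hg hT hinj hM
    (hms.trans hx) (by omega)
  have hsmall := fun i => small_gen (s := s) (i := i) hm hg hT hM
  have htriv : ∀ x, ∑ t ∈ T.filter (fun t => ¬ x ≤ M - wt g t), (M - wt g t) / m ≤ x := by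
    intro x
    refine Nat.le_of_mul_le_mul_left ?_ hm0
    rw [mul_sum]
    calc _ ≤ ∑ _t ∈ T.filter (fun t => ¬ x ≤ M - wt g t), x :=
          sum_le_sum fun t h => (Nat.mul_div_le _ _).trans (not_le.1 (mem_filter.1 h).2).le
      _ ≤ ∑ _t ∈ T, x := sum_le_sum_of_subset (filter_subset _ _)
      _ = m * x := by rw [sum_const, hcard, smul_eq_mul]
  have hD : ∑ t ∈ T, dg t = ∑ i, ∑ t ∈ T, t i := sum_comm
  rw [hD]
  set n := ∑ t ∈ T, (M - wt g t) / m with hn
  set A := ∑ i, ∑ t ∈ T, gp g T M i t / m with hA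
  set p := Fintype.card ι with hp'
  have hd : ∀ i, ∑ t ∈ T, t i ≤ 2 * n := fun i => by
    refine Nat.le_of_mul_le_mul_left ?_ hm0
    have := Nat.mul_le_mul_left (∑ t ∈ T, t i) (hg i)
    have := hc i
    nlinarith
  have hD2 : ∑ i, ∑ t ∈ T, t i ≤ p * (2 * n) := by
    rw [hp', ← card_univ, ← smul_eq_mul, ← sum_const]
    exact sum_le_sum fun i _ => hd i
  have hμ1 : min n m ≤ n := min_le_left _ _
  have hμ2 : min n m ≤ m := min_le_right _ _
  have fin : ∀ D, D ≤ 2 ^ 33 * A → min n m * D ≤ 2 ^ 38 * (m * A) + 2 ^ 19 * (m * min n m) :=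
    fun D h => by
      have := Nat.mul_le_mul hμ2 h
      nlinarith [Nat.zero_le (m * A), Nat.zero_le (m * min n m)]
  by_cases hA0 : p * n ≤ 2 ^ 25 * A
  · exact fin _ (by nlinarith)
  have hA1 : 16 * A ≤ p * n := by omega
  have hn0 : 0 < n := Nat.pos_of_ne_zero fun c => hA0 (by simp [c])
  have hMx : ∀ x, s ≤ x → n ≤ 6 * x → M ≤ 19 * (p * x) := fun x h1 h2 => by
    have a1 : (2 * p + 1) * n ≤ 3 * p * (6 * x) := Nat.mul_le_mul (by omega) h2
    have a2 : 1 * m ≤ p * x := Nat.mul_le_mul (by omega) (hms.trans h1)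
    nlinarith
  by_cases hcase : 4 * s ≤ n
  · have b1 : s ≤ n / 4 := by omega
    have b2 := hMx _ b1 (by omega)
    have b3 := htriv (n / 4)
    have b4 : 4 * (n / 4) ≤ n := by omega
    rcases hpack _ b1 b2 (hmany _ b1 b2 (by omega) hA1) with h | h
    · have := Nat.mul_le_mul_right n hp
      omega
    · refine fin _ (hD2.trans (Nat.le_of_mul_le_mul_left ?_ hn0))
      have := Nat.mul_le_mul_left A b4
      nlinarith
  · have b2 := hMx s le_rfl (by omega)
    have b3 : 2 ^ 24 * ∑ t ∈ T.filter (fun t => ¬ s ≤ M - wt g t), (M - wt g t) / m ≤ n := by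
      refine Nat.le_of_mul_le_mul_left ?_ (show 0 < p by omega)
      nlinarith
    have b4 := hmany s le_rfl b2 (by omega) hA1
    have b5 : ∑ i ∈ univ.filter (fun i => 4 * g i ≤ s), ∑ t ∈ T, t i ≤ 3840 * A := by
      rw [hA, mul_sum]
      refine (sum_le_sum fun i hi => ?_).trans (sum_le_sum_of_subset (subset_univ _))
      have := hsmall i (mem_filter.1 hi).2 b3 b4
      have := hd i
      omega
    have b6 : (∑ i ∈ univ.filter (fun i => ¬ 4 * g i ≤ s), ∑ t ∈ T, t i) * s ≤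
        p * (8 * (m * n)) := by
      rw [hp', ← card_univ, ← smul_eq_mul (card univ), ← sum_const, sum_mul]
      refine (sum_le_sum fun i hi => ?_).trans (sum_le_sum_of_subset (subset_univ _))
      have a1 := Nat.mul_le_mul_left (∑ t ∈ T, t i) (not_le.1 (mem_filter.1 hi).2).le
      have := hc i
      nlinarith
    rw [← sum_filter_add_sum_filter_not univ (fun i => 4 * g i ≤ s)]
    generalize ∑ i ∈ univ.filter (fun i => 4 * g i ≤ s), ∑ t ∈ T, t i = D1 at *
    generalize ∑ i ∈ univ.filter (fun i => ¬ 4 * g i ≤ s), ∑ t ∈ T, t i = D2 at *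
    have c1 := Nat.mul_le_mul hμ2 b5
    have hs0 : 0 < s := by omega
    rcases hpack s le_rfl b2 b4 with h | h
    · have c2 : D2 ≤ 2 ^ 19 * m := by
        refine Nat.le_of_mul_le_mul_right ?_ hs0
        have := Nat.mul_le_mul_left m h
        nlinarith
      have c3 := Nat.mul_le_mul_left (min n m) c2
      nlinarith [Nat.zero_le (m * A)]
    · have c2 : n * D2 ≤ 2 ^ 37 * (m * A) := by
        refine Nat.le_of_mul_le_mul_right ?_ hs0
        have := Nat.mul_le_mul_left m h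
        have := Nat.mul_le_mul_left n b6
        linarith
      have c3 := Nat.mul_le_mul_right D2 hμ1
      nlinarith [Nat.zero_le (m * A), Nat.zero_le (m * min n m)]

/-- The gain written over blocked edges. -/
theorem gain_dead (hm : 2 ≤ m) (hg : ∀ i, m ≤ g i) (hT : ∀ x ∈ T, ∀ y, y ≤ x → y ∈ T)
    (hcard : T.card = m) (hinj : ∀ x ∈ T, ∀ y ∈ T, wt g x ≡ wt g y [MOD m] → x = y)
    (hM : ∀ x ∈ T, wt g x ≤ M) (hp : 2 ^ 15 ≤ Fintype.card ι) :
    min (∑ t ∈ T, (M - wt g t) / m) m * ∑ t ∈ T, dg t ≤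
      2 ^ 38 * (m * ∑ i, ∑ y ∈ T.filter (fun y => y + ee i ∉ T), (y i + 1) * ((M - wt g y) / m)) +
        2 ^ 19 * (m * min (∑ t ∈ T, (M - wt g t) / m) m) := by
  have e : ∀ i, ∑ t ∈ T, gp g T M i t / m =
      ∑ y ∈ T.filter (fun y => y + ee i ∉ T), (y i + 1) * ((M - wt g y) / m) :=
    fun i => sum_top hT i fun y => (M - wt g y) / m
  simp only [← e]
  exact gain hm hg hT hcard hinj hM hp

end Pool.Agent.MP_96f5a9_co.H36
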