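import Mathlib.Algebra.Notation.Lemmas
import Mathlib.Tactic.Monotonicity.Lemmas
import Mathlib.Algebra.Order.Star.Real
import Mathlib.Tactic.Algebra.Basic

/-!
The pair inequality for the explicit flows.  Two kinds of generators of sizes `g, g' ≥ 1` carry
densities `μ, μ'` with `g' μ' ≤ g μ`.  A correction `c a + b l - d` (with `a` the integer part and
`l` the fractional part of the depth) is added to the flow of the first kind and removed from the
flow of the second kind.  The inequality says that the correction pays for the difference of the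
two rates `k / g` and `k' / g'`, with a margin outside a short set of fractional parts.
-/

namespace Pool.Agent.MP_96f5a9_co.H36

/-- The balance of a pair at a node of depth at least one. -/
noncomputable def psiN (g g' μ μ' c b k k' : ℝ) : ℝ :=
  b * (g * μ - g' * μ') - (b - c) * (μ * k - μ' * k') - (g * μ - g' * μ') * (k' / g' - k / g)

/-- The balance of a pair at a node of depth below one. -/
noncomputable def psiT (g g' μ μ' c b d l k k' : ℝ) : ℝ :=
  psiN g g' μ μ' c b k k' + (μ - μ') * (b * l - d)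

theorem mul_up {u s t T : ℝ} (h : s ≤ u * t) (ht : 0 < t) (hT : t ≤ T) (hs : 0 ≤ s) :
    s ≤ u * T := by
  have hu : 0 ≤ u := by
    by_contra hn
    have : u * t < 0 := mul_neg_of_neg_of_pos (lt_of_not_ge hn) ht
    linarith
  exact h.trans (mul_le_mul_of_nonneg_left hT hu)

/-- The data of a normalised pair. -/
structure PD (x y k k' l s : ℝ) : Prop where
  x0 : 0 < x
  x1 : x ≤ 1
  y0 : 0 < y
  y1 : y ≤ 1
  l1 : l < 1
  s0 : 0 ≤ s
  sl : s ≤ l
  sr : s ≤ 1 - l
  kc : k = 1 ∨ 2 ≤ k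
  kc' : k' = 1 ∨ k' = 2 ∨ 3 ≤ k'
  lo : (k - l) * x ≤ 1
  hi : 1 < (k + 1 - l) * x
  lo' : (k' - l) * y ≤ 1
  hi' : 1 < (k' + 1 - l) * y
  mono : x ≤ y → k' ≤ k
  mono' : y ≤ x → k ≤ k'
  exc : k' = 2 → (2 - l + s) * y ≤ 1

namespace PD

variable {x y k k' l s : ℝ} (P : PD x y k k' l s)
include P

theorem l0 : 0 ≤ l := P.s0.trans P.sl

theorem k1 : 1 ≤ k := by rcases P.kc with h | h <;> linarith

theorem k1' : 1 ≤ k' := by rcases P.kc' with h | h | h <;> linarith

theorem qlow : 1 ≤ k * x * (2 - l) := by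
  have h1 : 0 ≤ (k - 1) * (1 - l) * x :=
    mul_nonneg (mul_nonneg (by linarith [P.k1]) (by linarith [P.l1])) P.x0.le
  have := P.hi
  nlinarith

theorem qup : k' * y * (2 - l) ≤ 2 := by
  have hl := P.l0
  have hy := P.y0
  have hy1 := P.y1
  have h2 : ∀ _ : 2 ≤ k', k' * y * (2 - l) ≤ 2 := fun h => by
    have h1 : 0 ≤ (k' - 2) * l * y := mul_nonneg (mul_nonneg (by linarith) hl) hy.le
    have := P.lo'
    nlinarith
  rcases P.kc' with h | h | h
  · rw [h]; nlinarith
  · exact h2 h.ge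
  · exact h2 (by linarith)

theorem qup2 : k' * y ≤ 1 + l := by
  have hl := P.l0
  have hy1 := P.y1
  have := P.lo'
  nlinarith

/-- For `k ≥ 2` the quantity `(k - 1) x` is at least one third. -/
theorem third (h : 2 ≤ k) : 1 ≤ 3 * ((k - 1) * x) := by
  have hl := P.l0
  have hx := P.x0
  have h1 : 0 ≤ (2 * (k - 2) + l) * x := mul_nonneg (by linarith) hx.le
  have := P.hi
  nlinarith

theorem gap : s ≤ (k - 1 + l) * x * 3 := by
  have hl := P.l0
  have hx := P.x0
  have hs := P.sl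
  have hs' := P.sr
  have hlx : 0 ≤ l * x := mul_nonneg hl hx.le
  rcases P.kc with h | h
  · have h2 := P.hi
    rw [h] at h2 ⊢
    have h3 : 1 ≤ 2 * x := by nlinarith
    nlinarith
  · have := P.third h
    nlinarith

theorem non25 : s ≤ (1 - k' * y + k * x) * 2 := by
  have h1 := P.qlow
  have h2 := P.qup
  have hl := P.l0
  refine mul_up (t := 2 - l) ?_ (by linarith [P.l1]) (by linarith) P.s0
  have := P.sr
  nlinarith

theorem top5 {e : ℝ} (he : 1 / 2 ≤ e) (he1 : e ≤ 1) (hy : 2 < 3 * y) :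
    s * e ≤ 24 * (e * (1 - k' * y + k * x) + (x - (1 - e) * y) * (l - 1)) := by
  have hl := P.l0
  have hl1 := P.l1
  have hx := P.x0
  have hx1 := P.x1
  have hy0 := P.y0
  have hy1 := P.y1
  have hs0 := P.s0
  have hs := P.sl
  have hs' := P.sr
  have hgap := P.gap
  have hse : 0 ≤ s * e := mul_nonneg hs0 (by linarith)
  have hw : 0 ≤ (1 - e) * (1 - l) := mul_nonneg (by linarith) (by linarith)
  have hw' : (1 - e) * (1 - l) ≤ 1 - e := by nlinarith
  rcases le_total x y with hxy | hxy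
  · have hA : 0 ≤ (1 - e) * (1 - l) * (y - x) := mul_nonneg hw (by linarith)
    have hmain : s ≤ 24 * (1 - k' * y + (k - 1 + l) * x) := by
      rcases P.kc' with h | h | h
      · rw [h]; nlinarith
      · have hk : 2 ≤ k := by have := P.mono hxy; linarith
        have h1 : (1 + l) ≤ (k - 1 + l) * x * (3 - l) := by
          have h3 : 0 ≤ (k - 2) * (1 - l) * x :=
            mul_nonneg (mul_nonneg (by linarith) (by linarith)) hx.le
          have h4 : (1 + l) * 1 ≤ (1 + l) * ((k + 1 - l) * x) :=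
            mul_le_mul_of_nonneg_left P.hi.le (by linarith)
          nlinarith
        have h2 := P.qup
        have h5 : s ≤ (1 - k' * y + (k - 1 + l) * x) * ((2 - l) * (3 - l)) := by
          have h6 : (1 + l) * (2 - l) ≤ (k - 1 + l) * x * (3 - l) * (2 - l) :=
            mul_le_mul_of_nonneg_right h1 (by linarith)
          have h7 : k' * y * (2 - l) * (3 - l) ≤ 2 * (3 - l) :=
            mul_le_mul_of_nonneg_right h2 (by linarith)
          nlinarith
        have h8 := mul_up (T := 24) h5 (mul_pos (by linarith) (by linarith)) (by nlinarith) hs0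
        linarith
      · exfalso
        have := P.lo'
        nlinarith
    have h9 : s * e ≤ 24 * (1 - k' * y + (k - 1 + l) * x) * e :=
      mul_le_mul_of_nonneg_right hmain (by linarith)
    nlinarith
  · have hk := P.mono' hxy
    have hB : (1 - e) * (1 - l) * (x - y) ≤ (1 - e) * (1 - y) :=
      mul_le_mul hw' (by linarith) (by linarith) (by linarith)
    have hg : s * e ≤ (k - 1 + l) * x * 3 * e := mul_le_mul_of_nonneg_right hgap (by linarith)
    rcases P.kc' with h | h | h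
    · have h3 : 0 ≤ (2 * e - 1) * (1 - y) := mul_nonneg (by linarith) (by linarith)
      rw [h]
      nlinarith
    · have hlo := P.lo'
      have hex := P.exc h
      rw [h] at hlo hk ⊢
      have hl2 : 1 / 2 ≤ l := by nlinarith
      rcases P.kc with h1 | h1
      · have hhi := P.hi
        rw [h1] at hhi ⊢
        have h5 : s * e ≤ (e * (1 - 2 * y + 1 * x) + (x - (1 - e) * y) * (l - 1)) * (3 * (2 - l)) := by
          have h6 : (e + l - 1) * 1 ≤ (e + l - 1) * ((1 + 1 - l) * x) :=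
            mul_le_mul_of_nonneg_left hhi.le (by linarith)
          have hc : e ≤ 2 * e - (1 - e) * (1 - l) := by linarith
          have h7 : (2 * e - (1 - e) * (1 - l)) * ((2 - l + s) * y) ≤
              (2 * e - (1 - e) * (1 - l)) * 1 :=
            mul_le_mul_of_nonneg_left hex (by linarith)
          have h8 : e * (s * y) ≤ (2 * e - (1 - e) * (1 - l)) * (s * y) :=
            mul_le_mul_of_nonneg_right hc (mul_nonneg hs0 hy0.le)
          have h9 : s * e * 2 ≤ s * e * (3 * y) := mul_le_mul_of_nonneg_left hy.le hse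
          nlinarith
        have h8 := mul_up (T := 24) h5 (by linarith) (by linarith) hse
        linarith
      · have hk2 : k = 2 := le_antisymm hk h1
        have hlo2 := P.lo
        rw [hk2] at hlo2 ⊢
        have h3 : (1 - l) * x * 3 ≤ 1 := by nlinarith
        have h4 : 0 ≤ (1 - e) * (1 - l) * y := mul_nonneg hw hy0.le
        have h5 : 0 ≤ e * (x - y) := mul_nonneg (by linarith) (by linarith)
        have h6 : s * e ≤ 1 * e := mul_le_mul_of_nonneg_right (by linarith) (by linarith)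
        nlinarith
    · exfalso
      have := P.lo'
      nlinarith

theorem non3 {e : ℝ} (he : 0 ≤ e) (he1 : e ≤ 1) (hy : 3 * y ≤ 2) :
    s ≤ 12 * ((1 + e) * (1 - k' * y) + k * x) := by
  have hl := P.l0
  have hl1 := P.l1
  have hx := P.x0
  have hy0 := P.y0
  have hs0 := P.s0
  have hs := P.sl
  have hs' := P.sr
  have hq := P.qlow
  have hq0 : 0 < k * x := mul_pos (by linarith [P.k1]) hx
  have hq2 : 1 ≤ 2 * (k * x) := by nlinarith
  rcases le_total (k' * y) 1 with h0 | h0
  · have : 0 ≤ (1 + e) * (1 - k' * y) := mul_nonneg (by linarith) (by linarith)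
    linarith
  · have hred : 0 ≤ (1 - e) * (k' * y - 1) := mul_nonneg (by linarith) (by linarith)
    have hmain : s ≤ 12 * (2 * (1 - k' * y) + k * x) := by
      rcases P.kc' with h | h | h
      · rw [h] at h0; linarith
      · have hex := P.exc h
        rw [h] at h0 ⊢
        rcases le_total (2 * l) (1 + s) with h1 | h1
        · have h5 : s ≤ (2 * (1 - 2 * y) + k * x) * (2 * (2 - l)) := by
            have h6 : s * 1 ≤ s * (2 * y) := mul_le_mul_of_nonneg_left h0 hs0
            nlinarith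
          have h8 := mul_up (T := 12) h5 (by linarith) (by linarith) hs0
          linarith
        · have h5 : s ≤ (2 * (1 - 2 * y) + k * x) * (3 * (2 - l)) := by
            have h6 : 3 * y * (2 - l) ≤ 2 * (2 - l) := mul_le_mul_of_nonneg_right hy (by linarith)
            nlinarith
          have h8 := mul_up (T := 12) h5 (by linarith) (by linarith) hs0
          linarith
      · have h1 : k' * y * (3 - l) ≤ 3 := by
          have h2 : 0 ≤ (k' - 3) * l * y := mul_nonneg (mul_nonneg (by linarith) hl) hy0.le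
          have := P.lo'
          nlinarith
        have h5 : s ≤ (2 * (1 - k' * y) + k * x) * ((2 - l) * (3 - l)) := by
          have h6 : 1 * (3 - l) ≤ k * x * (2 - l) * (3 - l) :=
            mul_le_mul_of_nonneg_right hq (by linarith)
          have h7 : k' * y * (3 - l) * (2 - l) ≤ 3 * (2 - l) :=
            mul_le_mul_of_nonneg_right h1 (by linarith)
          have h9 : 0 ≤ (1 - l) * (2 - 2 * l) := mul_nonneg (by linarith) (by linarith)
          nlinarith
        have h8 := mul_up (T := 12) h5 (mul_pos (by linarith) (by linarith)) (by nlinarith) hs0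
        linarith
    nlinarith

theorem top3 {e : ℝ} (he : 0 ≤ e) (he1 : e ≤ 1) (hl2 : (1 + e) * l ≤ e) :
    s * e ≤ 12 * (e * ((1 + e) * (1 - k' * y) + k * x) +
      (x - (1 - e) * y) * ((1 + e) * l - e)) := by
  have hl := P.l0
  have hl1 := P.l1
  have hx := P.x0
  have hy0 := P.y0
  have hs0 := P.s0
  have hs := P.sl
  have hs' := P.sr
  have hgap := P.gap
  have hse : 0 ≤ s * e := mul_nonneg hs0 he
  have hlx : 0 ≤ l * x := mul_nonneg hl hx.le
  have hly : 0 ≤ l * y := mul_nonneg hl hy0.le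
  have hlh : 2 * l ≤ 1 := by nlinarith
  have hA : 0 ≤ (1 - e) * (e - (1 + e) * l) * y :=
    mul_nonneg (mul_nonneg (by linarith) (by linarith)) hy0.le
  have hB : 0 ≤ (1 - e) * (l * x) := mul_nonneg (by linarith) hlx
  have hmain : s ≤ 12 * ((1 + e) * (1 - k' * y) + (k - 1 + 2 * l) * x) := by
    rcases le_total (k' * y) 1 with h0 | h0
    · have : 0 ≤ (1 + e) * (1 - k' * y) := mul_nonneg (by linarith) (by linarith)
      nlinarith
    · have hred : 0 ≤ (1 - e) * (k' * y - 1) := mul_nonneg (by linarith) (by linarith)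
      have hlo := P.lo'
      have hm2 : s ≤ 12 * (2 * (1 - k' * y) + (k - 1 + 2 * l) * x) := by
        rcases P.kc with h1 | h1
        · have hhi := P.hi
          rw [h1] at hhi ⊢
          rcases P.kc' with h | h | h
          · have hy1 := P.y1
            rw [h]
            have h3 : 1 ≤ 2 * x := by nlinarith
            nlinarith
          · have hex := P.exc h
            rw [h] at h0 hlo ⊢
            have h3 : y ≤ x := by
              by_contra hn
              have h4 : (2 - l) * x ≤ (2 - l) * y :=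
                mul_le_mul_of_nonneg_left (le_of_not_ge hn) (by linarith)
              linarith
            have h6 : s * 1 ≤ s * (2 * y) := mul_le_mul_of_nonneg_left h0 hs0
            have h7 : l * y ≤ l * x := mul_le_mul_of_nonneg_left h3 hl
            nlinarith
          · have h3 : (3 - l) * y ≤ 1 := by
              have : 0 ≤ (k' - 3) * y := mul_nonneg (by linarith) hy0.le
              nlinarith
            have h4 : 1 ≤ (x - y) * ((2 - l) * (3 - l)) := by
              have h6 : 1 * (3 - l) ≤ (1 + 1 - l) * x * (3 - l) :=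
                mul_le_mul_of_nonneg_right hhi.le (by linarith)
              have h7 : (3 - l) * y * (2 - l) ≤ 1 * (2 - l) :=
                mul_le_mul_of_nonneg_right h3 (by linarith)
              nlinarith
            have h8 := mul_up (T := 6) h4 (mul_pos (by linarith) (by linarith)) (by nlinarith)
              zero_le_one
            have h9 : l * 1 ≤ l * ((x - y) * 6) := mul_le_mul_of_nonneg_left h8 hl
            nlinarith
        · have hq := P.qup
          have h3 : (1 + 2 * l) ≤ (k - 1 + 2 * l) * x * (3 - l) := by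
            have h5 : 0 ≤ (k - 2) * (2 - 3 * l) * x :=
              mul_nonneg (mul_nonneg (by linarith) (by linarith)) hx.le
            have h4 : (1 + 2 * l) * 1 ≤ (1 + 2 * l) * ((k + 1 - l) * x) :=
              mul_le_mul_of_nonneg_left P.hi.le (by linarith)
            nlinarith
          have h5 : s ≤ (2 * (1 - k' * y) + (k - 1 + 2 * l) * x) * ((2 - l) * (3 - l)) := by
            have h6 : (1 + 2 * l) * (2 - l) ≤ (k - 1 + 2 * l) * x * (3 - l) * (2 - l) :=
              mul_le_mul_of_nonneg_right h3 (by linarith)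
            have h7 : k' * y * (2 - l) * (3 - l) ≤ 2 * (3 - l) :=
              mul_le_mul_of_nonneg_right hq (by linarith)
            nlinarith
          have h8 := mul_up (T := 12) h5 (mul_pos (by linarith) (by linarith)) (by nlinarith) hs0
          linarith
      nlinarith
  have h9 : s * e ≤ 12 * ((1 + e) * (1 - k' * y) + (k - 1 + 2 * l) * x) * e :=
    mul_le_mul_of_nonneg_right hmain he
  nlinarith

theorem non4 {e : ℝ} (he : 0 ≤ e) (he1 : e ≤ 1 / 2) : s ≤ 2 * (1 / 2 + e - e * (k' * y)) := by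
  have h1 := P.qup2
  have hl := P.l0
  have hs' := P.sr
  have h2 : e * (k' * y) ≤ e * (1 + l) := mul_le_mul_of_nonneg_left h1 he
  nlinarith

theorem top4 {e : ℝ} (he : 0 ≤ e) (he1 : e ≤ 1 / 2) (hy : 2 < 3 * y)
    (hl2 : (1 / 2 + e) * l ≤ e) :
    s * e ≤ 2 * (e * (1 / 2 + e - e * (k' * y)) + (x - (1 - e) * y) * ((1 / 2 + e) * l - e)) := by
  have hl := P.l0
  have hx1 := P.x1
  have hy0 := P.y0
  have hy1 := P.y1
  have hs0 := P.s0
  have hs := P.sl
  have hlh : 2 * l ≤ 1 := by nlinarith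
  have hk : k' = 1 := by
    have hlo := P.lo'
    rcases P.kc' with h | h | h
    · exact h
    · exfalso; rw [h] at hlo; nlinarith
    · exfalso; nlinarith
  rw [hk]
  have h1 : 0 ≤ (1 - x) * (e - (1 / 2 + e) * l) := mul_nonneg (by linarith) (by linarith)
  have h2 : e ≤ 1 - (1 - e) * y := by nlinarith
  have h3 : e * ((1 / 2 + e) * l) ≤ (1 - (1 - e) * y) * ((1 / 2 + e) * l) :=
    mul_le_mul_of_nonneg_right h2 (mul_nonneg (by linarith) hl)
  have h4 : 0 ≤ e * ((1 - 2 * e) * (2 * y - 1)) :=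
    mul_nonneg he (mul_nonneg (by linarith) (by linarith))
  have h5 : s * e ≤ l * e := mul_le_mul_of_nonneg_right hs he
  have h6 : 0 ≤ e * e * l := mul_nonneg (mul_nonneg he he) hl
  nlinarith

end PD

/-- The normalised inequality: `g μ = 1`, `x = 1 / g`, `y = 1 / g'`, `g' μ' = 1 - e`. -/
theorem pair_norm (x y e : ℝ) (he0 : 0 ≤ e) (he1 : e ≤ 1) :
    ∃ c b d : ℝ, (0 ≤ c ∧ c ≤ b ∧ b ≤ 1 ∧ b - c ≤ 1 / 2 ∧ 0 ≤ d ∧ d ≤ 1) ∧
      (∀ a l : ℝ, 1 ≤ a → 0 ≤ l → l ≤ 1 →
        |c * a + b * l - d| ≤ a ∧ |c * a + b * l - d| ≤ 5 * e * a) ∧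
      ∀ k k' l s : ℝ, PD x y k k' l s →
        (s * e ^ 2 ≤ 24 * (b * e - (b - c) * (x * k - (1 - e) * y * k') - e * (k' * y - k * x)) ∧
          s * e ^ 2 ≤ 24 * (b * e - (b - c) * (x * k - (1 - e) * y * k') - e * (k' * y - k * x) +
            (x - (1 - e) * y) * (b * l - d))) ∧
        (5 * e ≤ 1 →
          e ^ 2 ≤ b * e - (b - c) * (x * k - (1 - e) * y * k') - e * (k' * y - k * x) ∧
          e ^ 2 ≤ b * e - (b - c) * (x * k - (1 - e) * y * k') - e * (k' * y - k * x) +
            (x - (1 - e) * y) * (b * l - d)) := by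
  have hsq : ∀ s : ℝ, 0 ≤ s → s * e ^ 2 ≤ s * e := fun s hs =>
    mul_le_mul_of_nonneg_left (by nlinarith) hs
  by_cases h5 : 5 * e ≤ 1
  · have key : ∀ d : ℝ, 0 ≤ d → d ≤ 3 * e →
        (∀ l : ℝ, 0 ≤ l → l ≤ 1 → 0 ≤ (x - (1 - e) * y) * (3 * e * l - d)) →
        ∃ c b d : ℝ, (0 ≤ c ∧ c ≤ b ∧ b ≤ 1 ∧ b - c ≤ 1 / 2 ∧ 0 ≤ d ∧ d ≤ 1) ∧
      (∀ a l : ℝ, 1 ≤ a → 0 ≤ l → l ≤ 1 →
        |c * a + b * l - d| ≤ a ∧ |c * a + b * l - d| ≤ 5 * e * a) ∧
      ∀ k k' l s : ℝ, PD x y k k' l s →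
        (s * e ^ 2 ≤ 24 * (b * e - (b - c) * (x * k - (1 - e) * y * k') - e * (k' * y - k * x)) ∧
          s * e ^ 2 ≤ 24 * (b * e - (b - c) * (x * k - (1 - e) * y * k') - e * (k' * y - k * x) +
            (x - (1 - e) * y) * (b * l - d))) ∧
        (5 * e ≤ 1 →
          e ^ 2 ≤ b * e - (b - c) * (x * k - (1 - e) * y * k') - e * (k' * y - k * x) ∧
          e ^ 2 ≤ b * e - (b - c) * (x * k - (1 - e) * y * k') - e * (k' * y - k * x) +
            (x - (1 - e) * y) * (b * l - d)) := by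
      intro d hd0 hd1 hd
      refine ⟨2 * e, 3 * e, d, ⟨by linarith, by linarith, by linarith, by linarith, hd0,
        by linarith⟩, fun a l ha hl0 hl1 => ?_, fun k k' l s P => ?_⟩
      · have h1 : e * 1 ≤ e * a := mul_le_mul_of_nonneg_left ha he0
        have h2 : e * l ≤ e * 1 := mul_le_mul_of_nonneg_left hl1 he0
        have h3 : 0 ≤ e * l := mul_nonneg he0 hl0
        have h4 : |2 * e * a + 3 * e * l - d| ≤ 5 * e * a := abs_le.2 ⟨by linarith, by linarith⟩
        have h6 : 5 * e * a ≤ 1 * a := mul_le_mul_of_nonneg_right h5 (by linarith)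
        exact ⟨by linarith, h4⟩
      · have h1 := P.qup2
        have hl1 := P.l1
        have h2 : e ^ 2 * (k' * y) ≤ e ^ 2 * 2 :=
          mul_le_mul_of_nonneg_left (by linarith) (sq_nonneg e)
        have h3 : e ^ 2 ≤ 3 * e * e - (3 * e - 2 * e) * (x * k - (1 - e) * y * k') -
            e * (k' * y - k * x) := by nlinarith
        have h4 := hd l P.l0 hl1.le
        have h6 : s * e ^ 2 ≤ 1 * e ^ 2 :=
          mul_le_mul_of_nonneg_right (by linarith [P.sr, P.l0]) (sq_nonneg e)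
        have h7 := sq_nonneg e
        exact ⟨⟨by linarith, by linarith⟩, fun _ => ⟨h3, by linarith⟩⟩
    rcases le_total ((1 - e) * y) x with h | h
    · exact key 0 le_rfl (by linarith) fun l hl0 _ =>
        mul_nonneg (by linarith) (by have := mul_nonneg he0 hl0; linarith)
    · exact key (3 * e) (by linarith) le_rfl fun l _ hl1 =>
        mul_nonneg_of_nonpos_of_nonpos (by linarith)
          (by have := mul_le_mul_of_nonneg_left hl1 he0; linarith)
  have h5' : 1 ≤ 5 * e := le_of_not_ge h5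
  have big : ∀ a t : ℝ, 1 ≤ a → |t| ≤ a → |t| ≤ a ∧ |t| ≤ 5 * e * a := fun a t ha h =>
    ⟨h, h.trans (by have := mul_le_mul_of_nonneg_right h5' (by linarith : (0 : ℝ) ≤ a); linarith)⟩
  have one : ∀ a l : ℝ, 1 ≤ a → 0 ≤ l → l ≤ 1 →
      |1 * a + 1 * l - 1| ≤ a ∧ |1 * a + 1 * l - 1| ≤ 5 * e * a := fun a l ha hl0 hl1 =>
    big a _ ha (abs_le.2 ⟨by linarith, by linarith⟩)
  by_cases hμ : x ≤ (1 - e) * y
  · refine ⟨1, 1, 1, by norm_num, one, fun k k' l s P => ⟨?_, fun h => absurd h h5⟩⟩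
    have h1 := mul_le_mul_of_nonneg_right P.non25 he0
    have h2 := hsq s P.s0
    have h3 := mul_nonneg P.s0 he0
    have h4 : 0 ≤ (x - (1 - e) * y) * (1 * l - 1) :=
      mul_nonneg_of_nonpos_of_nonpos (by linarith) (by linarith [P.l1])
    exact ⟨by nlinarith, by nlinarith⟩
  have hμ' : 0 ≤ x - (1 - e) * y := by linarith [le_of_not_ge hμ]
  by_cases hy : 3 * y ≤ 2
  · refine ⟨1 / 2, (1 + e) / 2, e / 2, ⟨by linarith, by linarith, by linarith, by linarith,
      by linarith, by linarith⟩, fun a l ha hl0 hl1 => big a _ ha ?_,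
      fun k k' l s P => ⟨?_, fun h => absurd h h5⟩⟩
    · have h2 : (1 + e) * l ≤ (1 + e) * 1 := mul_le_mul_of_nonneg_left hl1 (by linarith)
      have h3 : 0 ≤ (1 + e) * l := mul_nonneg (by linarith) hl0
      exact abs_le.2 ⟨by linarith, by linarith⟩
    · have h1 := mul_le_mul_of_nonneg_right (P.non3 he0 he1 hy) he0
      have h2 := hsq s P.s0
      refine ⟨by nlinarith, ?_⟩
      rcases le_total ((1 + e) * l) e with h | h
      · have h3 := P.top3 he0 he1 h
        nlinarith
      · have h3 : 0 ≤ (x - (1 - e) * y) * ((1 + e) / 2 * l - e / 2) :=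
          mul_nonneg hμ' (by linarith)
        nlinarith
  have hy' : 2 < 3 * y := lt_of_not_ge hy
  by_cases h2e : e ≤ 1 / 2
  · refine ⟨1 / 2, 1 / 2 + e, e, ⟨by linarith, by linarith, by linarith, by linarith,
      by linarith, by linarith⟩, fun a l ha hl0 hl1 => big a _ ha ?_,
      fun k k' l s P => ⟨?_, fun h => absurd h h5⟩⟩
    · have h2 : (1 / 2 + e) * l ≤ (1 / 2 + e) * 1 := mul_le_mul_of_nonneg_left hl1 (by linarith)
      have h3 : 0 ≤ (1 / 2 + e) * l := mul_nonneg (by linarith) hl0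
      exact abs_le.2 ⟨by linarith, by linarith⟩
    · have h1 := mul_le_mul_of_nonneg_right (P.non4 he0 h2e) he0
      have h2 := hsq s P.s0
      have h4 := mul_nonneg P.s0 he0
      refine ⟨by nlinarith, ?_⟩
      rcases le_total ((1 / 2 + e) * l) e with h | h
      · have h3 := P.top4 he0 h2e hy' h
        nlinarith
      · have h3 : 0 ≤ (x - (1 - e) * y) * ((1 / 2 + e) * l - e) := mul_nonneg hμ' (by linarith)
        nlinarith
  · refine ⟨1, 1, 1, by norm_num, one, fun k k' l s P => ⟨?_, fun h => absurd h h5⟩⟩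
    have h1 := mul_le_mul_of_nonneg_right P.non25 he0
    have h2 := hsq s P.s0
    have h3 := mul_nonneg P.s0 he0
    have h4 := P.top5 (le_of_not_ge h2e) he1 hy'
    exact ⟨by nlinarith, by nlinarith⟩

theorem pd_of {g g' l s : ℝ} {k k' : ℕ} (hg : 1 ≤ g) (hg' : 1 ≤ g') (hl1 : l < 1) (hs0 : 0 ≤ s)
    (hs : s ≤ l) (hs' : s ≤ 1 - l) (h1 : (k : ℝ) ≤ l + g) (h2 : l + g < k + 1)
    (h1' : (k' : ℝ) ≤ l + g') (h2' : l + g' < k' + 1) (hx : l + g' < 2 ∨ 2 + s ≤ l + g') :
    PD g⁻¹ g'⁻¹ k k' l s := by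
  have g0 : 0 < g := by linarith
  have g0' : 0 < g' := by linarith
  have le1 : ∀ {t u : ℝ}, 0 < u → t ≤ u → t * u⁻¹ ≤ 1 := fun hu h => by
    rw [← div_eq_mul_inv, div_le_one hu]; exact h
  have lt1 : ∀ {t u : ℝ}, 0 < u → u < t → 1 < t * u⁻¹ := fun hu h => by
    rw [← div_eq_mul_inv, one_lt_div hu]; exact h
  have mo : ∀ {a b : ℕ}, (a : ℝ) < b + 1 → (a : ℝ) ≤ b := fun {a b} h => by
    have : a < b + 1 := by exact_mod_cast h
    exact_mod_cast Nat.lt_succ_iff.1 this
  have k1 : 1 ≤ k := by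
    have : ((1 : ℕ) : ℝ) ≤ k := mo (by push_cast; linarith)
    exact_mod_cast this
  have k1' : 1 ≤ k' := by
    have : ((1 : ℕ) : ℝ) ≤ k' := mo (by push_cast; linarith)
    exact_mod_cast this
  refine ⟨inv_pos.2 g0, inv_le_one_of_one_le₀ hg, inv_pos.2 g0', inv_le_one_of_one_le₀ hg', hl1,
    hs0, hs, hs', ?_, ?_, le1 g0 (by linarith), lt1 g0 (by linarith), le1 g0' (by linarith),
    lt1 g0' (by linarith), fun h => mo ?_, fun h => mo ?_, fun h => le1 g0' ?_⟩
  · rcases (by omega : k = 1 ∨ 2 ≤ k) with h | h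
    · left; exact_mod_cast h
    · right; exact_mod_cast h
  · rcases (by omega : k' = 1 ∨ k' = 2 ∨ 3 ≤ k') with h | h | h
    · left; exact_mod_cast h
    · right; left; exact_mod_cast h
    · right; right; exact_mod_cast h
  · have := (inv_le_inv₀ g0 g0').1 h
    linarith
  · have := (inv_le_inv₀ g0' g0).1 h
    linarith
  · rcases hx with hx | hx <;> linarith

/-- The pair inequality.  With `ρ = g μ ≥ ρ' = g' μ'` and `δ = ρ - ρ'` both balances are
nonnegative, at least `δ ^ 2 / ρ` when `5 δ ≤ ρ`, and at least `s δ ^ 2 / (24 ρ)` when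
`s ≤ l ≤ 1 - s` and `l + g'` is not in `[2, 2 + s)`. -/
theorem pair {g g' μ μ' : ℝ} (hg : 1 ≤ g) (hg' : 1 ≤ g') (h0 : 0 ≤ μ') (hρ : g' * μ' ≤ g * μ) :
    ∃ c b d : ℝ, (0 ≤ c ∧ c ≤ b ∧ b ≤ 1 ∧ b - c ≤ 1 / 2 ∧ 0 ≤ d ∧ d ≤ 1) ∧
      (∀ a l : ℝ, 1 ≤ a → 0 ≤ l → l ≤ 1 → |c * a + b * l - d| ≤ a ∧
        g * μ * |c * a + b * l - d| ≤ 5 * (g * μ - g' * μ') * a) ∧
      (g' * μ' = g * μ → c = 0 ∧ b = 0 ∧ d = 0) ∧
      ∀ (l : ℝ) (k k' : ℕ), 0 ≤ l → l < 1 → (k : ℝ) ≤ l + g → l + g < k + 1 →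
        (k' : ℝ) ≤ l + g' → l + g' < k' + 1 →
        (0 ≤ psiN g g' μ μ' c b k k' ∧ 0 ≤ psiT g g' μ μ' c b d l k k') ∧
        (5 * (g * μ - g' * μ') ≤ g * μ →
          (g * μ - g' * μ') ^ 2 ≤ g * μ * psiN g g' μ μ' c b k k' ∧
          (g * μ - g' * μ') ^ 2 ≤ g * μ * psiT g g' μ μ' c b d l k k') ∧
        ∀ s : ℝ, 0 ≤ s → s ≤ l → s ≤ 1 - l → (l + g' < 2 ∨ 2 + s ≤ l + g') →
          s * (g * μ - g' * μ') ^ 2 ≤ 24 * (g * μ * psiN g g' μ μ' c b k k') ∧
          s * (g * μ - g' * μ') ^ 2 ≤ 24 * (g * μ * psiT g g' μ μ' c b d l k k') := by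
  have g0 : 0 < g := by linarith
  have g0' : 0 < g' := by linarith
  have r0 : 0 ≤ g' * μ' := mul_nonneg g0'.le h0
  by_cases hE : g' * μ' = g * μ
  · refine ⟨0, 0, 0, by norm_num, fun a l ha _ _ => ?_, fun _ => ⟨rfl, rfl, rfl⟩,
      fun l k k' _ _ _ _ _ _ => ?_⟩
    · rw [hE]
      simp only [zero_mul, add_zero, abs_zero, mul_zero, sub_self, le_refl, and_true]
      linarith
    · simp [psiN, psiT, hE]
  have hr : 0 < g * μ := lt_of_le_of_lt r0 (lt_of_le_of_ne hρ hE)
  obtain ⟨ρ, hρd⟩ : ∃ ρ, ρ = g * μ := ⟨_, rfl⟩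
  obtain ⟨e, he⟩ : ∃ e, e = (g * μ - g' * μ') / (g * μ) := ⟨_, rfl⟩
  have he0 : 0 ≤ e := he ▸ div_nonneg (by linarith) hr.le
  have he1 : e ≤ 1 := he ▸ (div_le_one hr).2 (by linarith)
  have hδ : g * μ - g' * μ' = ρ * e := by rw [he, hρd, mul_div_cancel₀ _ hr.ne']
  have hμ : μ = ρ * g⁻¹ := by rw [hρd]; field_simp
  have hμ' : μ' = ρ * ((1 - e) * g'⁻¹) := by
    have : g' * μ' = ρ * (1 - e) := by rw [mul_sub, ← hδ, hρd]; ring
    field_simp
    linarith
  rw [← hρd] at hr
  obtain ⟨c, b, d, hb, ha, hm⟩ := pair_norm g⁻¹ g'⁻¹ e he0 he1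
  have eN : ∀ k k' : ℝ, psiN g g' μ μ' c b k k' = ρ * (b * e - (b - c) *
      (g⁻¹ * k - (1 - e) * g'⁻¹ * k') - e * (k' * g'⁻¹ - k * g⁻¹)) := fun k k' => by
    rw [psiN, hδ, div_eq_mul_inv, div_eq_mul_inv]
    have : μ * k - μ' * k' = ρ * (g⁻¹ * k - (1 - e) * g'⁻¹ * k') := by
      rw [hμ', hμ]; ring
    rw [this]; ring
  have eT : ∀ l k k' : ℝ, psiT g g' μ μ' c b d l k k' = ρ * (b * e - (b - c) *
      (g⁻¹ * k - (1 - e) * g'⁻¹ * k') - e * (k' * g'⁻¹ - k * g⁻¹) +
      (g⁻¹ - (1 - e) * g'⁻¹) * (b * l - d)) := fun l k k' => by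
    rw [psiT, eN]
    have : μ - μ' = ρ * (g⁻¹ - (1 - e) * g'⁻¹) := by rw [hμ', hμ]; ring
    rw [this]; ring
  refine ⟨c, b, d, hb, fun a l h1 h2 h3 => ⟨(ha a l h1 h2 h3).1, ?_⟩, fun h => absurd h hE,
    fun l k k' hl0 hl1 h1 h2 h1' h2' => ?_⟩
  · rw [hδ, ← hρd]
    have := mul_le_mul_of_nonneg_left (ha a l h1 h2 h3).2 hr.le
    linarith
  · have P0 := hm k k' l 0 (pd_of hg hg' hl1 le_rfl hl0 (by linarith) h1 h2 h1' h2'
      (by rcases lt_or_ge (l + g') 2 with h | h
          · exact Or.inl h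
          · exact Or.inr (by linarith)))
    have r2 : 0 ≤ ρ ^ 2 := sq_nonneg ρ
    rw [eN, eT, hδ, ← hρd]
    refine ⟨⟨mul_nonneg hr.le (by linarith [P0.1.1]), mul_nonneg hr.le (by linarith [P0.1.2])⟩,
      fun h5 => ?_, fun s hs0 hs hs' hx => ?_⟩
    · have h6 : 5 * e ≤ 1 := le_of_mul_le_mul_left (by linarith) hr
      have h7 := mul_le_mul_of_nonneg_left (P0.2 h6).1 r2
      have h8 := mul_le_mul_of_nonneg_left (P0.2 h6).2 r2
      exact ⟨by linarith, by linarith⟩
    · have P1 := (hm k k' l s (pd_of hg hg' hl1 hs0 hs hs' h1 h2 h1' h2' hx)).1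
      have h7 := mul_le_mul_of_nonneg_left P1.1 r2
      have h8 := mul_le_mul_of_nonneg_left P1.2 r2
      exact ⟨by linarith, by linarith⟩

end Pool.Agent.MP_96f5a9_co.H36
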