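import Mathlib.Algebra.BigOperators.Field
import Pool.Agent.MP_96f5a9_co.h36.Pair
import Pool.Agent.MP_96f5a9_co.h59a.Spec

/-!
Bounded generators: the antisymmetric form of the pair inequality, the sum over cells, the flow
identity and sums over residues.
-/

set_option autoImplicit false

namespace Pool.Agent.MP_96f5a9_co.H36

open Finset Function H51 H16 H93 H80

/-- The indicator of `[2, 2 + s)`. -/
noncomputable def ex (s x : ℝ) : ℝ := if 2 ≤ x ∧ x < 2 + s then 1 else 0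

/-- The indicator of the two ends of the unit interval. -/
noncomputable def ey (s l : ℝ) : ℝ := if l < s ∨ 1 - s < l then 1 else 0

lemma ex_nonneg (s x : ℝ) : 0 ≤ ex s x := by unfold ex; split_ifs <;> norm_num

lemma ex_le (s x : ℝ) : ex s x ≤ 1 := by unfold ex; split_ifs <;> norm_num

lemma ey_nonneg (s x : ℝ) : 0 ≤ ey s x := by unfold ey; split_ifs <;> norm_num

lemma ey_le (s x : ℝ) : ey s x ≤ 1 := by unfold ey; split_ifs <;> norm_num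

/-- What a pair of cells has to satisfy. -/
def PairOk (θ s g g' μ μ' c b d : ℝ) : Prop :=
  (|b| ≤ 1 ∧ |b - c| ≤ 1 / 2 ∧ |d| ≤ 1) ∧
  (∀ a l : ℝ, 1 ≤ a → 0 ≤ l → l ≤ 1 → |c * a + b * l - d| ≤ (1 - θ) * a) ∧
  ∀ (l τ : ℝ) (k k' : ℕ), 0 ≤ l → l < 1 → (τ = 0 ∨ τ = 1) → (k : ℝ) ≤ l + g → l + g < k + 1 →
    (k' : ℝ) ≤ l + g' → l + g' < k' + 1 →
    0 ≤ psiN g g' μ μ' c b k k' + τ * ((μ - μ') * (b * l - d)) +
      (12 * θ ^ 2 / s + θ * ey s l) * (g * μ + g' * μ') +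
      θ * (g * μ * ex s (l + g') + g' * μ' * ex s (l + g))

lemma PairOk.symm {θ s g g' μ μ' c b d : ℝ} (h : PairOk θ s g g' μ μ' c b d) :
    PairOk θ s g' g μ' μ (-c) (-b) (-d) := by
  obtain ⟨⟨h1, h2, h3⟩, h4, h5⟩ := h
  refine ⟨⟨by rwa [abs_neg], ?_, by rwa [abs_neg]⟩, fun a l a1 a2 a3 => ?_,
    fun l τ k k' a1 a2 a3 a4 a5 a6 a7 => ?_⟩
  · rwa [show -b - -c = -(b - c) by ring, abs_neg]
  · rw [show -c * a + -b * l - -d = -(c * a + b * l - d) by ring, abs_neg]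
    exact h4 a l a1 a2 a3
  · have := h5 l τ k' k a1 a2 a3 a6 a7 a4 a5
    unfold psiN at this ⊢
    linarith

lemma mix_arith {θ s ρ δ ψ : ℝ} (hθ : θ ≤ 1 / 2) (hs : 0 < s) (hρ : 0 ≤ ρ)
    (hδ : 0 ≤ δ) (hδρ : δ ≤ ρ) (hψ : 0 ≤ ψ) (h : s * δ ^ 2 ≤ 24 * (ρ * ψ)) :
    θ * δ ≤ (1 - θ) * ψ + 12 * θ ^ 2 / s * ρ := by
  rcases hρ.eq_or_lt with h0 | h0
  · have : δ = 0 := by linarith
    rw [this, ← h0]
    have := mul_nonneg (by linarith : 0 ≤ 1 - θ) hψ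
    linarith
  · have h1 : ψ / 2 ≤ (1 - θ) * ψ := by nlinarith
    have h2 : θ * δ ≤ ψ / 2 + 12 * θ ^ 2 / s * ρ := by
      refine le_of_mul_le_mul_left ?_ (mul_pos hs h0)
      have e : s * ρ * (ψ / 2 + 12 * θ ^ 2 / s * ρ) = s * (ρ * ψ) / 2 + 12 * (θ * ρ) ^ 2 := by
        field_simp
      have h3 := mul_le_mul_of_nonneg_left h hs.le
      rw [e]
      nlinarith [sq_nonneg (s * δ - 24 * (θ * ρ))]
    linarith

lemma pair_ord {θ s g g' μ μ' : ℝ} (hθ0 : 0 ≤ θ) (hθ : θ ≤ 1 / 2) (hs : 0 < s) (hg : 1 ≤ g)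
    (hg' : 1 ≤ g') (h0 : 0 ≤ μ') (hρ : g' * μ' ≤ g * μ) :
    ∃ c b d : ℝ, PairOk θ s g g' μ μ' c b d ∧ (g' * μ' = g * μ → c = 0 ∧ b = 0 ∧ d = 0) := by
  obtain ⟨c, b, d, ⟨b1, b2, b3, b4, b5, b6⟩, ha, hz, hm⟩ := pair hg hg' h0 hρ
  have t0 : 0 ≤ 1 - θ := by linarith
  have ab : ∀ x y : ℝ, 0 ≤ x → x ≤ y → |(1 - θ) * x| ≤ y := fun x y h1 h2 => by
    rw [abs_of_nonneg (mul_nonneg t0 h1)]
    nlinarith [mul_nonneg hθ0 h1]
  refine ⟨(1 - θ) * c, (1 - θ) * b, (1 - θ) * d, ⟨⟨ab _ _ (by linarith) b3, ?_, ab _ _ b5 b6⟩,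
    fun a l a1 a2 a3 => ?_, fun l τ k k' a1 a2 a3 a4 a5 a6 a7 => ?_⟩, fun h => ?_⟩
  · rw [← mul_sub]
    exact ab _ _ (by linarith) b4
  · rw [show (1 - θ) * c * a + (1 - θ) * b * l - (1 - θ) * d = (1 - θ) * (c * a + b * l - d) by ring,
      abs_mul, abs_of_nonneg t0]
    exact mul_le_mul_of_nonneg_left (ha a l a1 a2 a3).1 t0
  · obtain ⟨⟨n1, n2⟩, -, n3⟩ := hm l k k' a1 a2 a4 a5 a6 a7
    have P := pd_of hg hg' a2 le_rfl a1 (by linarith) a4 a5 a6 a7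
      (by rcases lt_or_ge (l + g') 2 with h | h
          · exact Or.inl h
          · exact Or.inr (by linarith))
    have q1 : (k' : ℝ) / g' - k / g ≤ 1 := by
      have := P.non25
      rw [div_eq_mul_inv, div_eq_mul_inv]
      linarith
    have r0 : 0 ≤ g' * μ' := mul_nonneg (by linarith) h0
    obtain ⟨ψ, hψ⟩ : ∃ ψ, ψ = psiN g g' μ μ' c b k k' + τ * ((μ - μ') * (b * l - d)) := ⟨_, rfl⟩
    have p0 : 0 ≤ ψ := by
      unfold psiT at n2
      rcases a3 with h | h <;> rw [hψ, h] <;> linarith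
    have e : psiN g g' μ μ' ((1 - θ) * c) ((1 - θ) * b) k k' +
        τ * ((μ - μ') * ((1 - θ) * b * l - (1 - θ) * d)) =
        (1 - θ) * ψ - θ * ((g * μ - g' * μ') * (k' / g' - k / g)) := by
      rw [hψ, psiN, psiN]; ring
    have q2 : θ * ((g * μ - g' * μ') * (k' / g' - k / g)) ≤ θ * ((g * μ - g' * μ') * 1) :=
      mul_le_mul_of_nonneg_left (mul_le_mul_of_nonneg_left q1 (by linarith)) hθ0
    have k0 : 0 ≤ 12 * θ ^ 2 / s := by positivity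
    have u1 : 0 ≤ θ * (g' * μ' * ex s (l + g)) := mul_nonneg hθ0 (mul_nonneg r0 (ex_nonneg _ _))
    have u2 : 0 ≤ θ * (g * μ * ex s (l + g')) :=
      mul_nonneg hθ0 (mul_nonneg (by linarith) (ex_nonneg _ _))
    have u3 : 0 ≤ θ * ey s l * (g * μ + g' * μ') :=
      mul_nonneg (mul_nonneg hθ0 (ey_nonneg _ _)) (by linarith)
    have u4 : 0 ≤ 12 * θ ^ 2 / s * (g' * μ') := mul_nonneg k0 r0
    have u5 : 0 ≤ 12 * θ ^ 2 / s * (g * μ) := mul_nonneg k0 (by linarith)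
    have u6 : 0 ≤ (1 - θ) * ψ := mul_nonneg t0 p0
    have u7 : 0 ≤ θ * (g' * μ') := mul_nonneg hθ0 r0
    rw [e]
    by_cases c1 : l < s ∨ 1 - s < l
    · have : ey s l = 1 := if_pos c1
      rw [this] at u3 ⊢
      linarith
    · by_cases c2 : 2 ≤ l + g' ∧ l + g' < 2 + s
      · have : ex s (l + g') = 1 := if_pos c2
        rw [this] at u2 ⊢
        linarith
      · rw [not_or, not_lt, not_lt] at c1
        obtain ⟨m1, m2⟩ := n3 s hs.le c1.1 (by linarith [c1.2]) (by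
          rcases lt_or_ge (l + g') 2 with h | h
          · exact Or.inl h
          · exact Or.inr (le_of_not_gt fun h' => c2 ⟨h, h'⟩))
        have m3 : s * (g * μ - g' * μ') ^ 2 ≤ 24 * (g * μ * ψ) := by
          unfold psiT at m2
          rcases a3 with h | h <;> rw [hψ, h]
          · rw [zero_mul, add_zero]; exact m1
          · rw [one_mul]; exact m2
        have := mix_arith hθ hs (by linarith : 0 ≤ g * μ) (by linarith) (by linarith) p0 m3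
        linarith
  · obtain ⟨h1, h2, h3⟩ := hz h
    rw [h1, h2, h3, mul_zero]
    exact ⟨rfl, rfl, rfl⟩

/-- Antisymmetric coefficients for all pairs. -/
theorem pair_mix {θ s : ℝ} (hθ0 : 0 ≤ θ) (hθ : θ ≤ 1 / 2) (hs : 0 < s) :
    ∃ c b d : ℝ → ℝ → ℝ → ℝ → ℝ, ∀ g g' μ μ' : ℝ, 1 ≤ g → 1 ≤ g' → 0 ≤ μ → 0 ≤ μ' →
      PairOk θ s g g' μ μ' (c g g' μ μ') (b g g' μ μ') (d g g' μ μ') ∧
      c g' g μ' μ = -c g g' μ μ' ∧ b g' g μ' μ = -b g g' μ μ' ∧ d g' g μ' μ = -d g g' μ μ' := by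
  have H : ∀ g g' μ μ' : ℝ, ∃ c b d : ℝ, 1 ≤ g → 1 ≤ g' → 0 ≤ μ' → g' * μ' ≤ g * μ →
      PairOk θ s g g' μ μ' c b d ∧ (g' * μ' = g * μ → c = 0 ∧ b = 0 ∧ d = 0) := by
    intro g g' μ μ'
    by_cases h : 1 ≤ g ∧ 1 ≤ g' ∧ 0 ≤ μ' ∧ g' * μ' ≤ g * μ
    · obtain ⟨c, b, d, h'⟩ := pair_ord hθ0 hθ hs h.1 h.2.1 h.2.2.1 h.2.2.2
      exact ⟨c, b, d, fun _ _ _ _ => h'⟩
    · exact ⟨0, 0, 0, fun a b c d => absurd ⟨a, b, c, d⟩ h⟩
  choose c b d H using H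
  refine ⟨fun g g' μ μ' => if g' * μ' ≤ g * μ then c g g' μ μ' else -c g' g μ' μ,
    fun g g' μ μ' => if g' * μ' ≤ g * μ then b g g' μ μ' else -b g' g μ' μ,
    fun g g' μ μ' => if g' * μ' ≤ g * μ then d g g' μ μ' else -d g' g μ' μ,
    fun g g' μ μ' hg hg' h0 h0' => ?_⟩
  rcases lt_trichotomy (g' * μ') (g * μ) with h | h | h
  · simp only [if_pos h.le, if_neg (not_le.2 h)]
    exact ⟨(H g g' μ μ' hg hg' h0' h.le).1, trivial, trivial, trivial⟩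
  · obtain ⟨h1, h2⟩ := H g g' μ μ' hg hg' h0' h.le
    obtain ⟨a1, a2, a3⟩ := h2 h
    obtain ⟨b1, b2, b3⟩ := (H g' g μ' μ hg' hg h0 h.ge).2 h.symm
    simp only [if_pos h.le, if_pos h.ge]
    exact ⟨h1, by rw [a1, b1, neg_zero], by rw [a2, b2, neg_zero], by rw [a3, b3, neg_zero]⟩
  · simp only [if_pos h.le, if_neg (not_le.2 h), neg_neg]
    exact ⟨(H g' g μ' μ hg' hg h0 h.le).1.symm, trivial, trivial, trivial⟩

lemma sym_nonneg {κ : Type} (J : Finset κ) (p : κ → ℝ) (U : κ → κ → ℝ) (hp : ∀ t ∈ J, 0 ≤ p t)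
    (h : ∀ t ∈ J, ∀ u ∈ J, 0 ≤ U t u + U u t) : 0 ≤ ∑ t ∈ J, p t * ∑ u ∈ J, p u * U t u := by
  have e : ∑ t ∈ J, p t * ∑ u ∈ J, p u * U t u = ∑ t ∈ J, p t * ∑ u ∈ J, p u * U u t := by
    simp only [mul_sum]
    rw [sum_comm]
    exact sum_congr rfl fun t _ => sum_congr rfl fun u _ => by ring
  have h2 : 0 ≤ ∑ t ∈ J, (p t * ∑ u ∈ J, p u * U t u + p t * ∑ u ∈ J, p u * U u t) :=
    sum_nonneg fun t ht => by
      rw [← mul_add, ← sum_add_distrib]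
      exact mul_nonneg (hp t ht) (sum_nonneg fun u hu => by
        rw [← mul_add]; exact mul_nonneg (hp u hu) (h t ht u hu))
  rw [sum_add_distrib] at h2
  linarith

/-- The weighted mean over the cells. -/
noncomputable def av {κ : Type} (J : Finset κ) (p f : κ → ℝ) : ℝ := (∑ u ∈ J, p u * f u) / ∑ u ∈ J, p u

lemma av_le {κ : Type} {J : Finset κ} {p f : κ → ℝ} {x : ℝ} (hp : ∀ t ∈ J, 0 ≤ p t)
    (hP : 0 < ∑ u ∈ J, p u) (h : ∀ u ∈ J, f u ≤ x) : av J p f ≤ x := by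
  rw [av, div_le_iff₀ hP, mul_sum]
  exact sum_le_sum fun u hu => by
    rw [mul_comm x]; exact mul_le_mul_of_nonneg_left (h u hu) (hp u hu)

lemma le_av {κ : Type} {J : Finset κ} {p f : κ → ℝ} {x : ℝ} (hp : ∀ t ∈ J, 0 ≤ p t)
    (hP : 0 < ∑ u ∈ J, p u) (h : ∀ u ∈ J, x ≤ f u) : x ≤ av J p f := by
  rw [av, le_div_iff₀ hP, mul_sum]
  exact sum_le_sum fun u hu => by
    rw [mul_comm x]; exact mul_le_mul_of_nonneg_left (h u hu) (hp u hu)

lemma abs_av_le {κ : Type} {J : Finset κ} {p f : κ → ℝ} {x : ℝ} (hp : ∀ t ∈ J, 0 ≤ p t)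
    (hP : 0 < ∑ u ∈ J, p u) (h : ∀ u ∈ J, |f u| ≤ x) : |av J p f| ≤ x :=
  abs_le.2 ⟨le_av hp hP fun u hu => (abs_le.1 (h u hu)).1,
    av_le hp hP fun u hu => (abs_le.1 (h u hu)).2⟩

lemma av_anti {κ : Type} (J : Finset κ) (p : κ → ℝ) (U : κ → κ → ℝ) (hp : ∀ t ∈ J, 0 ≤ p t)
    (hP : 0 < ∑ u ∈ J, p u) (h : ∀ t ∈ J, ∀ u ∈ J, U u t = -U t u) :
    ∑ t ∈ J, p t * av J p (U t) ≤ 0 := by
  have h1 := sym_nonneg J p (fun t u => -U t u) hp fun t ht u hu => by rw [h t ht u hu]; simp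
  have e : ∑ t ∈ J, p t * av J p (U t) =
      -(∑ t ∈ J, p t * ∑ u ∈ J, p u * -U t u) / ∑ u ∈ J, p u := by
    rw [← sum_neg_distrib, sum_div]
    refine sum_congr rfl fun t _ => ?_
    simp only [av, mul_neg, sum_neg_distrib, neg_neg, mul_div_assoc]
  rw [e]
  exact div_nonpos_of_nonpos_of_nonneg (by linarith) hP.le

/-- The increment of the flow of a cell. -/
noncomputable def phi {κ : Type} (J : Finset κ) (p : κ → ℝ) (c b d : κ → ℝ) (γ k l τ : ℝ) : ℝ :=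
  k * (1 - av J p fun u => b u - c u) + av J p b * γ + τ * av J p fun u => b u * l - d u

/-- The sum of the pair inequalities. -/
theorem cells {κ : Type} (J : Finset κ) (p γ μ : κ → ℝ) (k : κ → ℕ) (c b d : κ → κ → ℝ)
    {θ s l τ : ℝ} (hp : ∀ t ∈ J, 0 ≤ p t) (hP : 0 < ∑ u ∈ J, p u) (hγ : ∀ t ∈ J, 1 ≤ γ t)
    (hl0 : 0 ≤ l) (hl1 : l < 1) (hτ : τ = 0 ∨ τ = 1)
    (hk : ∀ t ∈ J, (k t : ℝ) ≤ l + γ t ∧ l + γ t < k t + 1)
    (h : ∀ t ∈ J, ∀ u ∈ J, PairOk θ s (γ t) (γ u) (μ t) (μ u) (c t u) (b t u) (d t u) ∧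
      c u t = -c t u ∧ b u t = -b t u ∧ d u t = -d t u) :
    0 ≤ ∑ t ∈ J, p t * μ t * (phi J p (c t) (b t) (d t) (γ t) (k t) l τ - γ t *
      (av J p (fun u => k u / γ u) - (12 * θ ^ 2 / s + θ * ey s l) -
        θ * av J p fun u => ex s (l + γ u))) := by
  have h1 := sym_nonneg J p (fun t u => μ t * (k t * (1 - (b t u - c t u)) + b t u * γ t +
      τ * (b t u * l - d t u) - γ t * (k u / γ u - (12 * θ ^ 2 / s + θ * ey s l) -
        θ * ex s (l + γ u)))) hp fun t ht u hu => by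
    obtain ⟨⟨-, -, a1⟩, a2, a3, a4⟩ := h t ht u hu
    have a5 := a1 l τ (k t) (k u) hl0 hl1 hτ (hk t ht).1 (hk t ht).2 (hk u hu).1 (hk u hu).2
    have g1 : γ t ≠ 0 := by linarith [hγ t ht]
    have g2 : γ u ≠ 0 := by linarith [hγ u hu]
    have e1 : γ t * μ t * (k t / γ t) = μ t * k t := by field_simp
    have e2 : γ u * μ u * (k u / γ u) = μ u * k u := by field_simp
    rw [a2, a3, a4]
    unfold psiN at a5
    linarith
  refine le_of_mul_le_mul_right ?_ hP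
  rw [zero_mul, sum_mul]
  refine h1.trans (le_of_eq (sum_congr rfl fun t _ => ?_))
  obtain ⟨P, hPd⟩ : ∃ P, P = ∑ u ∈ J, p u := ⟨_, rfl⟩
  have hP' : P ≠ 0 := by rw [hPd]; exact hP.ne'
  have e : ∑ u ∈ J, p u * (μ t * (k t * (1 - (b t u - c t u)) + b t u * γ t +
      τ * (b t u * l - d t u) - γ t * (k u / γ u - (12 * θ ^ 2 / s + θ * ey s l) -
        θ * ex s (l + γ u)))) = μ t * (k t * (P - ∑ u ∈ J, p u * (b t u - c t u)) +
      (∑ u ∈ J, p u * b t u) * γ t + τ * ∑ u ∈ J, p u * (b t u * l - d t u) -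
      γ t * (∑ u ∈ J, p u * (k u / γ u) - (12 * θ ^ 2 / s + θ * ey s l) * P -
        θ * ∑ u ∈ J, p u * ex s (l + γ u))) := by
    simp only [hPd, mul_sum, sum_mul, ← sum_sub_distrib, ← sum_add_distrib]
    exact sum_congr rfl fun u _ => by ring
  rw [e]
  simp only [phi, av, ← hPd]
  generalize ∑ u ∈ J, p u * (b t u - c t u) = x1
  generalize ∑ u ∈ J, p u * b t u = x2
  generalize ∑ u ∈ J, p u * (b t u * l - d t u) = x3
  generalize ∑ u ∈ J, p u * (k u / γ u) = x4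
  generalize ∑ u ∈ J, p u * ex s (l + γ u) = x5
  generalize 12 * θ ^ 2 / s + θ * ey s l = x6
  field_simp

variable {ι : Type} [Fintype ι] [DecidableEq ι] {g : ι → ℕ} {T : Finset (ι → ℕ)} {m M : ℕ}

/-- The flow identity in one direction. -/
lemma flow_id (hT : ∀ x ∈ T, ∀ y, y ≤ x → y ∈ T) (F : (ι → ℕ) → ℝ) (i : ι) :
    ∑ y ∈ T, F y = ∑ z ∈ T, z i * (F (z - ee i) - F z) +
      ∑ y ∈ T.filter (fun y => y + ee i ∉ T), ((y i : ℝ) + 1) * F y := by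
  have h1 : ∑ y ∈ T.filter (fun y => y + ee i ∈ T), ((y i : ℝ) + 1) * F y =
      ∑ z ∈ T.filter (fun z => 0 < z i), z i * F (z - ee i) := by
    refine sum_nbij' (fun y => y + ee i) (fun z => z - ee i) (fun y hy => ?_) (fun z hz => ?_)
      (fun y _ => add_tsub_cancel_right _ _) (fun z hz => sub_add_ee (mem_filter.1 hz).2)
      fun y _ => ?_
    · exact mem_filter.2 ⟨(mem_filter.1 hy).2, by simp [ee]⟩
    · refine mem_filter.2 ⟨down hT (mem_filter.1 hz).1 i, ?_⟩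
      rw [sub_add_ee (mem_filter.1 hz).2]
      exact (mem_filter.1 hz).1
    · simp [ee]
  have h2 : ∑ z ∈ T.filter (fun z => 0 < z i), (z i : ℝ) * F (z - ee i) =
      ∑ z ∈ T, z i * F (z - ee i) := sum_filter_of_ne fun z _ h =>
    Nat.pos_of_ne_zero fun e => h (by rw [e]; simp)
  have h3 := sum_filter_add_sum_filter_not T (fun y => y + ee i ∈ T)
    fun y => ((y i : ℝ) + 1) * F y
  rw [h1, h2] at h3
  simp only [add_mul, one_mul, sum_add_distrib, mul_sub, sum_sub_distrib] at h3 ⊢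
  linarith

/-- The flow inequality. -/
theorem flow_le (hT : ∀ x ∈ T, ∀ y, y ≤ x → y ∈ T) (F : (ι → ℕ) → ι → ℝ) (θ : ℝ)
    (h1 : ∀ y ∈ T, ∀ i, θ * ((M - wt g y) / m : ℕ) ≤ F y i)
    (h2 : ∀ y ∈ T, ∑ i, F y i ≤ Fintype.card ι * ((M - wt g y) / m : ℕ)) :
    ∑ z ∈ T, ∑ i, z i * (F (z - ee i) i - F z i) + θ * (∑ i, Ad g T M m i : ℕ) ≤
      Fintype.card ι * (∑ t ∈ T, (M - wt g t) / m : ℕ) := by
  have h3 := sum_le_sum h2
  rw [sum_comm, ← mul_sum, sum_congr rfl fun i _ => flow_id hT (fun y => F y i) i,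
    sum_add_distrib, sum_comm] at h3
  have h4 : θ * (∑ i, Ad g T M m i : ℕ) ≤
      ∑ i, ∑ y ∈ T.filter (fun y => y + ee i ∉ T), ((y i : ℝ) + 1) * F y i := by
    rw [Nat.cast_sum, mul_sum]
    refine sum_le_sum fun i _ => ?_
    rw [Ad, Nat.cast_sum, mul_sum]
    refine sum_le_sum fun y hy => ?_
    rw [Nat.cast_mul, mul_left_comm, Nat.cast_add_one]
    exact mul_le_mul_of_nonneg_left (h1 y (mem_filter.1 hy).1 i) (by positivity)
  rw [Nat.cast_sum (s := T)]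
  linarith

omit [DecidableEq ι] in
/-- Sums over the ideal of functions of the residue. -/
lemma sum_res {β : Type} [AddCommMonoid β] (hm : 0 < m) (hcard : T.card = m)
    (hinj : ∀ x ∈ T, ∀ y ∈ T, wt g x ≡ wt g y [MOD m] → x = y) (hM : ∀ x ∈ T, wt g x ≤ M)
    (f : ℕ → β) : ∑ z ∈ T, f ((M - wt g z) % m) = ∑ r ∈ range m, f r := by
  have hf : Set.InjOn (fun x => (M - wt g x) % m) T := fun x hx y hy h => hinj x hx y hy <| by
    have h4 : (M - wt g x) + wt g x ≡ (M - wt g y) + wt g y [MOD m] := by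
      rw [Nat.sub_add_cancel (hM x hx), Nat.sub_add_cancel (hM y hy)]
    exact Nat.ModEq.add_left_cancel h h4
  rw [← sum_image (g := fun x => (M - wt g x) % m) (f := f) hf]
  congr 1
  refine eq_of_subset_of_card_le (fun r hr => ?_) ?_
  · obtain ⟨x, -, rfl⟩ := mem_image.1 hr
    exact mem_range.2 (Nat.mod_lt _ hm)
  · rw [card_image_of_injOn hf, hcard, card_range]

lemma hermite (hm : 0 < m) (G : ℕ) : ∑ r ∈ range m, (r + G) / m = G := by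
  induction G with
  | zero => exact sum_eq_zero fun r hr => Nat.div_eq_of_lt (mem_range.1 hr)
  | succ G ih =>
    have h1 := sum_range_succ (fun r => (r + G) / m) m
    have h2 := sum_range_succ' (fun r => (r + G) / m) m
    have h3 : (m + G) / m = G / m + 1 := Nat.add_div_left G hm
    have h4 : ∑ r ∈ range m, (r + (G + 1)) / m = ∑ r ∈ range m, (r + 1 + G) / m :=
      sum_congr rfl fun r _ => by rw [add_assoc, add_comm 1]
    simp only [zero_add] at h2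
    omega

lemma cnt (m : ℕ) (u v : ℝ) (hv : 0 ≤ v) (f : ℕ → ℝ) (h1 : ∀ r, f r ≤ 1)
    (h2 : ∀ r < m, 0 < f r → u ≤ r ∧ (r : ℝ) < u + v) : ∑ r ∈ range m, f r ≤ v + 1 := by
  have a1 : ∑ r ∈ range m, f r ≤ ∑ r ∈ (range m).filter (fun r => 0 < f r), (1 : ℝ) := by
    rw [sum_filter]
    refine sum_le_sum fun r _ => ?_
    split_ifs with c
    · exact h1 r
    · exact le_of_not_gt c
  have a2 : (range m).filter (fun r => 0 < f r) ⊆ Ico ⌈u⌉₊ (⌈u⌉₊ + ⌈v⌉₊) := fun r hr => by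
    obtain ⟨b1, b2⟩ := h2 r (mem_range.1 (mem_filter.1 hr).1) (mem_filter.1 hr).2
    exact mem_Ico.2 ⟨Nat.ceil_le.2 b1, (Nat.lt_ceil.2 b2).trans_le (Nat.ceil_add_le u v)⟩
  have a3 := card_le_card a2
  rw [Nat.card_Ico, Nat.add_sub_cancel_left] at a3
  rw [sum_const, nsmul_eq_mul, mul_one] at a1
  have a4 : (((range m).filter fun r => 0 < f r).card : ℝ) ≤ ⌈v⌉₊ := by exact_mod_cast a3
  linarith [Nat.ceil_lt_add_one hv]

end Pool.Agent.MP_96f5a9_co.H36
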