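import Pool.Agent.MP_96f5a9_co.h36.CaseA
import Pool.Agent.MP_96f5a9_co.h59a.Basic

-- ======== part 0: formerly Pool.Agent.MP_96f5a9_co.h36.CaseB
section MrgPart0

/-!
Bounded generators: the flow and its increments along single edges.
-/

set_option autoImplicit false

namespace Pool.Agent.MP_96f5a9_co.H36

open Finset Function H51 H16 H93 H80 WA

/-- The parameters of the flow. -/
structure Par (ι : Type) where
  g : ι → ℕ
  M : ℕ
  m : ℕ
  S : Finset ι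
  r : ι → ℕ
  h : ℕ
  G : ℕ
  θ : ℝ
  c : ℝ → ℝ → ℝ → ℝ → ℝ
  b : ℝ → ℝ → ℝ → ℝ → ℝ
  d : ℝ → ℝ → ℝ → ℝ → ℝ

/-- The coefficient of a pair of cells. -/
noncomputable def cf (c : ℝ → ℝ → ℝ → ℝ → ℝ) (m : ℕ) (μ : ℕ → ℝ) (t u : ℕ) : ℝ :=
  c (t / m) (u / m) (μ t) (μ u)

/-- The rounded multiplicity. -/
def nb (h s x : ℕ) : ℕ := h * ((x + s) / h)

lemma av_lin {κ : Type} (J : Finset κ) (p c b d : κ → ℝ) (a l : ℝ) :
    av J p (fun u => c u * a + b u * l - d u) = av J p c * a + av J p b * l - av J p d := by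
  have e : ∑ u ∈ J, p u * (c u * a + b u * l - d u) =
      (∑ u ∈ J, p u * c u) * a + (∑ u ∈ J, p u * b u) * l - ∑ u ∈ J, p u * d u := by
    simp only [sum_mul, ← sum_add_distrib, ← sum_sub_distrib]
    exact sum_congr rfl fun u _ => by ring
  simp only [av, e]
  ring

lemma phi_eq {κ : Type} (J : Finset κ) (p c b d : κ → ℝ) (γ k l τ : ℝ) :
    phi J p c b d γ k l τ =
      k * (1 - (av J p b - av J p c)) + av J p b * γ + τ * (av J p b * l - av J p d) := by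
  have e1 := av_lin J p b b c 1 0
  have e2 := av_lin J p b b d 0 l
  simp only [mul_one, mul_zero, add_zero, zero_add] at e1 e2
  rw [phi, e1, e2]

lemma nb_abs {h s : ℕ} (hs : s < h) (x : ℕ) : |(nb h s x : ℝ) - x| ≤ h := by
  have h1 := Nat.div_add_mod (x + s) h
  have h2 := Nat.mod_lt (x + s) (show 0 < h by omega)
  have h3 : nb h s x ≤ x + h := by unfold nb; omega
  have h4 : x ≤ nb h s x + h := by unfold nb; omega
  have h5 : (nb h s x : ℝ) ≤ x + h := by exact_mod_cast h3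
  have h6 : (x : ℝ) ≤ nb h s x + h := by exact_mod_cast h4
  exact abs_le.2 ⟨by linarith, by linarith⟩

lemma nb_succ {h s x : ℕ} (hx : (x + 1 + s) % h ≠ 0) : nb h s x = nb h s (x + 1) := by
  unfold nb
  rw [add_right_comm] at hx ⊢
  rw [Nat.succ_div, if_neg fun e => hx (Nat.mod_eq_zero_of_dvd e), add_zero]

lemma sum_ind (h x : ℕ) : ∑ s ∈ range h, (if (x + s) % h = 0 then (1 : ℝ) else 0) ≤ 1 := by
  rw [sum_boole]
  have : ((range h).filter fun s => (x + s) % h = 0).card ≤ 1 := card_le_one.2 fun a ha b hb => by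
    obtain ⟨a1, a2⟩ := mem_filter.1 ha
    obtain ⟨b1, b2⟩ := mem_filter.1 hb
    have e : x + a ≡ x + b [MOD h] := a2.trans b2.symm
    exact (Nat.ModEq.add_left_cancel' x e).eq_of_lt_of_lt (mem_range.1 a1) (mem_range.1 b1)
  exact_mod_cast this

namespace Par

variable {ι : Type} [Fintype ι] [DecidableEq ι] (P : Par ι)

/-- The cells. -/
def J : Finset ℕ := P.S.image P.r

/-- The size of a cell. -/
def pc (t : ℕ) : ℝ := (P.S.filter fun i => P.r i = t).card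

/-- The number of factors in a cell. -/
def nc (z : ι → ℕ) (t : ℕ) : ℕ := ∑ i ∈ P.S.filter (fun i => P.r i = t), z i

/-- The rounded density of a cell. -/
noncomputable def mu (s : ℕ) (z : ι → ℕ) (t : ℕ) : ℝ := nb P.h s (P.nc z t) / P.pc t

/-- The correction. -/
noncomputable def cor (μ : ℕ → ℝ) (t : ℕ) (a l : ℝ) : ℝ :=
  av P.J P.pc fun u => cf P.c P.m μ t u * a + cf P.b P.m μ t u * l - cf P.d P.m μ t u

/-- The integer part of the depth. -/
def a (z : ι → ℕ) : ℝ := aa P.g P.M P.m z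

/-- The fractional part of the depth. -/
noncomputable def l (z : ι → ℕ) : ℝ := ll P.g P.M P.m z

/-- The flow. -/
noncomputable def fl (s : ℕ) (y : ι → ℕ) (i : ι) : ℝ :=
  if i ∈ P.S then
    if P.a y < 1 then 0 else
      if P.a y < P.G then P.a y + P.cor (P.mu s y) (P.r i) (P.a y) (P.l y) else P.θ * P.a y
  else if P.a y < P.G then P.a y else (2 - P.θ) * P.a y

/-- The integer increment of a generator of size `t`. -/
def kk (z : ι → ℕ) (t : ℕ) : ℕ := ((P.M - wt P.g z) % P.m + t) / P.m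

/-- The hypotheses. -/
structure Ok (σ lam : ℝ) (G1 : ℕ) : Prop where
  m0 : 0 < P.m
  hg : ∀ i, P.m ≤ P.g i
  hr : ∀ i ∈ P.S, P.m ≤ P.r i ∧ P.r i ≤ P.g i ∧ (P.g i : ℝ) ≤ P.r i + lam * P.m ∧ P.g i ≤ G1 * P.m
  ne : P.S.Nonempty
  half : Fintype.card ι ≤ 2 * P.S.card
  t0 : 0 ≤ P.θ
  t1 : P.θ ≤ 1 / 2
  ts : P.θ ≤ σ
  s0 : 0 < σ
  l0 : 0 ≤ lam
  h0 : 0 < P.h
  G0 : 0 < P.G
  pr : ∀ g g' μ μ' : ℝ, 1 ≤ g → 1 ≤ g' → 0 ≤ μ → 0 ≤ μ' →
    PairOk P.θ σ g g' μ μ' (P.c g g' μ μ') (P.b g g' μ μ') (P.d g g' μ μ') ∧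
    P.c g' g μ' μ = -P.c g g' μ μ' ∧ P.b g' g μ' μ = -P.b g g' μ μ' ∧
    P.d g' g μ' μ = -P.d g g' μ μ'

omit [Fintype ι] [DecidableEq ι] in
lemma pc_nonneg (t : ℕ) : 0 ≤ P.pc t := Nat.cast_nonneg _

omit [Fintype ι] [DecidableEq ι] in
lemma mu_nonneg (s : ℕ) (z : ι → ℕ) (t : ℕ) : 0 ≤ P.mu s z t :=
  div_nonneg (Nat.cast_nonneg _) (P.pc_nonneg t)

omit [Fintype ι] [DecidableEq ι] in
lemma sum_cells (x : ι → ℝ) (ψ : ℕ → ℝ) : ∑ i ∈ P.S, x i * ψ (P.r i) =
    ∑ t ∈ P.J, (∑ i ∈ P.S.filter (fun i => P.r i = t), x i) * ψ t := by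
  rw [← sum_fiberwise_of_maps_to (s := P.S) (t := P.J) (g := P.r) fun i hi => mem_image_of_mem _ hi]
  refine sum_congr rfl fun t _ => ?_
  rw [sum_mul]
  exact sum_congr rfl fun i hi => by rw [(mem_filter.1 hi).2]

omit [Fintype ι] [DecidableEq ι] in
lemma sum_pc (ψ : ℕ → ℝ) : ∑ i ∈ P.S, ψ (P.r i) = ∑ t ∈ P.J, P.pc t * ψ t := by
  simpa [pc] using P.sum_cells (fun _ => 1) ψ

omit [Fintype ι] [DecidableEq ι] in
lemma pc_pos {t : ℕ} (ht : t ∈ P.J) : 0 < P.pc t := by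
  obtain ⟨i, hi, e⟩ := mem_image.1 ht
  exact Nat.cast_pos.2 (card_pos.2 ⟨i, mem_filter.2 ⟨hi, e⟩⟩)

omit [DecidableEq ι] in
lemma a_nonneg (z : ι → ℕ) : 0 ≤ P.a z := aa_nonneg z

omit [DecidableEq ι] in
lemma a_zero {z : ι → ℕ} (h : P.a z < 1) : P.a z = 0 := by
  unfold a aa at h ⊢
  have : (P.M - wt P.g z) / P.m < 1 := by exact_mod_cast h
  rw [Nat.lt_one_iff.1 this, Nat.cast_zero]

omit [DecidableEq ι] in
lemma l_nonneg (z : ι → ℕ) : 0 ≤ P.l z := ll_nonneg z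

variable {P} {σ lam : ℝ} {G1 : ℕ} (H : P.Ok σ lam G1)
include H

omit [DecidableEq ι] in
lemma Ok.l_lt (z : ι → ℕ) : P.l z < 1 := ll_lt H.m0 z

omit [DecidableEq ι] in
lemma Ok.tot : 0 < ∑ u ∈ P.J, P.pc u :=
  sum_pos (fun _ h => P.pc_pos h) (H.ne.image _)

omit [DecidableEq ι] in
lemma Ok.gam {t : ℕ} (ht : t ∈ P.J) : 1 ≤ (t : ℝ) / P.m ∧ (t : ℝ) / P.m ≤ G1 := by
  obtain ⟨i, hi, rfl⟩ := mem_image.1 ht
  obtain ⟨h1, h2, -, h3⟩ := H.hr i hi
  have h0 : (0 : ℝ) < P.m := Nat.cast_pos.2 H.m0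
  rw [le_div_iff₀ h0, div_le_iff₀ h0, one_mul]
  exact ⟨by exact_mod_cast h1, by exact_mod_cast h2.trans h3⟩

omit [DecidableEq ι] in
lemma Ok.kk_spec (z : ι → ℕ) (t : ℕ) :
    (P.kk z t : ℝ) ≤ P.l z + t / P.m ∧ P.l z + t / P.m < P.kk z t + 1 := by
  have h0 : (0 : ℝ) < P.m := Nat.cast_pos.2 H.m0
  have h1 := Nat.div_add_mod ((P.M - wt P.g z) % P.m + t) P.m
  have h2 := Nat.mod_lt ((P.M - wt P.g z) % P.m + t) H.m0
  have h3 : P.kk z t * P.m ≤ (P.M - wt P.g z) % P.m + t := Nat.div_mul_le_self _ _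
  have h4 : (P.M - wt P.g z) % P.m + t < (P.kk z t + 1) * P.m := by
    rw [add_mul, one_mul, mul_comm, kk]; omega
  rw [l, ll, ← add_div, le_div_iff₀ h0, div_lt_iff₀ h0]
  exact ⟨by exact_mod_cast h3, by exact_mod_cast h4⟩

omit [DecidableEq ι] in
lemma Ok.pair {μ : ℕ → ℝ} (hμ : ∀ t, 0 ≤ μ t) {t u : ℕ} (ht : t ∈ P.J) (hu : u ∈ P.J) :
    PairOk P.θ σ (t / P.m) (u / P.m) (μ t) (μ u) (cf P.c P.m μ t u) (cf P.b P.m μ t u)
      (cf P.d P.m μ t u) ∧ cf P.c P.m μ u t = -cf P.c P.m μ t u ∧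
      cf P.b P.m μ u t = -cf P.b P.m μ t u ∧ cf P.d P.m μ u t = -cf P.d P.m μ t u :=
  H.pr _ _ _ _ (H.gam ht).1 (H.gam hu).1 (hμ t) (hμ u)

omit [DecidableEq ι] in
lemma Ok.cor_abs {μ : ℕ → ℝ} (hμ : ∀ t, 0 ≤ μ t) {t : ℕ} (ht : t ∈ P.J) {a l : ℝ} (ha : 1 ≤ a)
    (h0 : 0 ≤ l) (h1 : l ≤ 1) : |P.cor μ t a l| ≤ (1 - P.θ) * a :=
  abs_av_le (fun u _ => P.pc_nonneg u) H.tot fun _ hu => (H.pair hμ ht hu).1.2.1 a l ha h0 h1

lemma Ok.fl_bd (s : ℕ) (y : ι → ℕ) (i : ι) : P.θ * P.a y ≤ P.fl s y i ∧ P.fl s y i ≤ 2 * P.a y := by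
  have h0 := P.a_nonneg y
  have h1 := mul_nonneg H.t0 h0
  have h2 := mul_le_mul_of_nonneg_right H.t1 h0
  unfold fl
  split_ifs with c1 c2 c3 c4
  · rw [P.a_zero c2]; simp
  · have := abs_le.1 (H.cor_abs (P.mu_nonneg s y) (mem_image_of_mem _ c1) (not_lt.1 c2)
      (P.l_nonneg y) (H.l_lt y).le)
    exact ⟨by linarith [this.1], by linarith [this.2]⟩
  · exact ⟨le_rfl, by linarith⟩
  · exact ⟨by linarith, by linarith⟩
  · exact ⟨by linarith, by linarith⟩

lemma Ok.supply (s : ℕ) (y : ι → ℕ) : ∑ i, P.fl s y i ≤ Fintype.card ι * P.a y := by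
  have h0 := P.a_nonneg y
  have hc : (P.S.card : ℝ) + P.Sᶜ.card = Fintype.card ι := by exact_mod_cast card_add_card_compl P.S
  have hh : (Fintype.card ι : ℝ) ≤ 2 * P.S.card := by exact_mod_cast H.half
  rw [← sum_add_sum_compl P.S]
  by_cases c2 : P.a y < 1
  · refine le_trans ?_ (mul_nonneg (Nat.cast_nonneg _) h0)
    have : ∀ i, P.fl s y i ≤ 0 := fun i => by
      have := (H.fl_bd s y i).2
      rwa [P.a_zero c2, mul_zero] at this
    exact add_nonpos (sum_nonpos fun i _ => this i) (sum_nonpos fun i _ => this i)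
  by_cases c3 : P.a y < P.G
  · rw [sum_congr rfl (g := fun i => P.a y + P.cor (P.mu s y) (P.r i) (P.a y) (P.l y))
      fun i hi => by rw [fl, if_pos hi, if_neg c2, if_pos c3],
      sum_congr rfl (s₁ := P.Sᶜ) (g := fun _ => P.a y)
      fun i hi => by rw [fl, if_neg (mem_compl.1 hi), if_pos c3],
      sum_add_distrib, P.sum_pc fun t => P.cor (P.mu s y) t (P.a y) (P.l y)]
    have := av_anti P.J P.pc (fun t u => cf P.c P.m (P.mu s y) t u * P.a y +
      cf P.b P.m (P.mu s y) t u * P.l y - cf P.d P.m (P.mu s y) t u) (fun u _ => P.pc_nonneg u)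
      H.tot fun t ht u hu => by
        obtain ⟨-, e1, e2, e3⟩ := H.pair (P.mu_nonneg s y) ht hu
        rw [e1, e2, e3]; ring
    simp only [sum_const, nsmul_eq_mul, cor]
    rw [← hc]
    linarith
  · rw [sum_congr rfl (g := fun _ => P.θ * P.a y)
      fun i hi => by rw [fl, if_pos hi, if_neg c2, if_neg c3],
      sum_congr rfl (s₁ := P.Sᶜ) (g := fun _ => (2 - P.θ) * P.a y)
      fun i hi => by rw [fl, if_neg (mem_compl.1 hi), if_neg c3]]
    simp only [sum_const, nsmul_eq_mul]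
    have : 0 ≤ ((P.S.card : ℝ) - P.Sᶜ.card) * ((1 - P.θ) * P.a y) :=
      mul_nonneg (by linarith) (mul_nonneg (by linarith [H.t1]) h0)
    rw [← hc]
    linarith

lemma Ok.a_sub {z : ι → ℕ} {k : ι} (hz : wt P.g z ≤ P.M) (hk : 0 < z k) :
    P.a (z - ee k) = P.a z + P.kk z (P.g k) ∧
      P.l (z - ee k) = P.l z + P.g k / P.m - P.kk z (P.g k) := by
  have h1 : P.a (z - ee k) = P.a z + P.kk z (P.g k) := aa_sub H.m0 hz hk
  have h2 := wt_sub (g := P.g) hk
  have h3 : P.a z + P.l z = _ := aa_add_ll H.m0 hz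
  have h4 : P.a (z - ee k) + P.l (z - ee k) = _ := aa_add_ll H.m0 (by omega)
  have h5 : (wt P.g (z - ee k) : ℝ) = wt P.g z - P.g k := by
    rw [← h2, Nat.cast_add, add_sub_cancel_right]
  refine ⟨h1, ?_⟩
  rw [h5, show ((P.M : ℝ) - (wt P.g z - P.g k)) / P.m = (P.M - wt P.g z) / P.m + P.g k / P.m by ring]
    at h4
  linarith

/-- Edges outside the cells. -/
lemma Ok.edgeU (s : ℕ) {z : ι → ℕ} {k : ι} (hz : wt P.g z ≤ P.M) (hk : 0 < z k) (hS : k ∉ P.S) :
    0 ≤ P.fl s (z - ee k) k - P.fl s z k ∧ (P.a z < P.G → P.G * P.m ≤ P.g k →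
      (2 - P.θ) * (P.g k / P.m) - 2 ≤ P.fl s (z - ee k) k - P.fl s z k) := by
  have h1 := (H.a_sub hz hk).1
  have h2 := (H.kk_spec z (P.g k)).2
  have h0 := P.a_nonneg z
  have h3 : (0 : ℝ) ≤ P.kk z (P.g k) := Nat.cast_nonneg _
  have h4 := P.l_nonneg z
  have t0 := H.t0
  have t1 := H.t1
  rw [fl, fl, if_neg hS, if_neg hS, h1]
  refine ⟨?_, fun c1 c2 => ?_⟩
  · split_ifs <;> nlinarith
  · have h5 : P.G ≤ P.kk z (P.g k) := (Nat.le_div_iff_mul_le H.m0).2 (by omega)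
    have h6 : (P.G : ℝ) ≤ P.kk z (P.g k) := by exact_mod_cast h5
    rw [if_neg (by linarith), if_pos c1]
    nlinarith

/-- Edges in the cells above the jump. -/
lemma Ok.edgeH (s : ℕ) {z : ι → ℕ} {k : ι} (hz : wt P.g z ≤ P.M) (hk : 0 < z k) :
    -(if P.a z < P.G then 2 * P.a z else 0) ≤ P.fl s (z - ee k) k - P.fl s z k := by
  have h1 := (H.a_sub hz hk).1
  have h3 : (0 : ℝ) ≤ P.kk z (P.g k) := Nat.cast_nonneg _
  have h4 := (H.fl_bd s (z - ee k) k).1
  split_ifs with c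
  · linarith [(H.fl_bd s z k).2, mul_nonneg H.t0 (P.a_nonneg (z - ee k))]
  · by_cases hS : k ∈ P.S
    · have h5 : (1 : ℝ) ≤ P.G := by exact_mod_cast H.G0
      have e : P.fl s z k = P.θ * P.a z := by
        rw [fl, if_pos hS, if_neg (by linarith [not_lt.1 c]), if_neg c]
      rw [e]
      rw [h1] at h4
      linarith [mul_nonneg H.t0 h3]
    · linarith [(H.edgeU s hz hk hS).1]

omit H [Fintype ι] in
lemma mu_sub (s : ℕ) {z : ι → ℕ} {k : ι} (hk : 0 < z k) (hS : k ∈ P.S)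
    (hx : (P.nc z (P.r k) + s) % P.h ≠ 0) : P.mu s (z - ee k) = P.mu s z := by
  funext u
  have e : P.nc (z - ee k) u + (if P.r k = u then 1 else 0) = P.nc z u := by
    conv_rhs => rw [← sub_add_ee hk]
    simp only [nc, Pi.add_apply, sum_add_distrib]
    congr 1
    simp [ee, Pi.single_apply, hS]
  unfold mu
  split_ifs at e with c
  · rw [c, ← e] at hx
    rw [← e, nb_succ hx]
  · rw [← e, add_zero]

/-- Edges in the cells below the jump. -/
lemma Ok.edgeS (s : ℕ) {z : ι → ℕ} {k : ι} (hz : wt P.g z ≤ P.M) (hk : 0 < z k) (hS : k ∈ P.S)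
    (hL : P.a z + G1 < P.G) :
    phi P.J P.pc (cf P.c P.m (P.mu s z) (P.r k)) (cf P.b P.m (P.mu s z) (P.r k))
        (cf P.d P.m (P.mu s z) (P.r k)) (P.r k / P.m) (P.kk z (P.r k)) (P.l z)
        (if P.a z < 1 then 1 else 0) - lam -
      2 * P.G * (if (P.nc z (P.r k) + s) % P.h = 0 then 1 else 0) ≤
      P.fl s (z - ee k) k - P.fl s z k := by
  obtain ⟨h1, h2⟩ := H.a_sub hz hk
  obtain ⟨r1, r2, r3, r4⟩ := H.hr k hS
  have m0 : (0 : ℝ) < P.m := Nat.cast_pos.2 H.m0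
  have ht : P.r k ∈ P.J := mem_image_of_mem _ hS
  have h0 := P.a_nonneg z
  have k1 : (1 : ℝ) ≤ P.kk z (P.g k) := by
    have : 1 ≤ P.kk z (P.g k) := (Nat.le_div_iff_mul_le H.m0).2 (by omega)
    exact_mod_cast this
  have k2 : (P.kk z (P.g k) : ℝ) ≤ G1 := by
    have h3 := Nat.mod_lt (P.M - wt P.g z) H.m0
    have : P.kk z (P.g k) < G1 + 1 := (Nat.div_lt_iff_lt_mul H.m0).2 (by rw [add_mul]; omega)
    exact_mod_cast Nat.lt_succ_iff.1 this
  have k3 : (P.kk z (P.r k) : ℝ) ≤ P.kk z (P.g k) := by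
    have : P.kk z (P.r k) ≤ P.kk z (P.g k) := Nat.div_le_div_right (by omega)
    exact_mod_cast this
  have g1 : (P.r k : ℝ) / P.m ≤ P.g k / P.m :=
    div_le_div_of_nonneg_right (by exact_mod_cast r2) m0.le
  have g2 : (P.g k : ℝ) / P.m ≤ P.r k / P.m + lam := by
    rw [div_le_iff₀ m0, add_mul, div_mul_cancel₀ _ m0.ne']
    exact r3
  have y1 : 1 ≤ P.a (z - ee k) := by linarith
  have y2 : P.a (z - ee k) < P.G := by linarith
  have e1 : P.fl s (z - ee k) k = P.a (z - ee k) +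
      P.cor (P.mu s (z - ee k)) (P.r k) (P.a (z - ee k)) (P.l (z - ee k)) := by
    rw [fl, if_pos hS, if_neg (not_lt.2 y1), if_pos y2]
  have e2 : P.cor (P.mu s z) (P.r k) (P.a (z - ee k)) (P.l (z - ee k)) -
      2 * P.G * (if (P.nc z (P.r k) + s) % P.h = 0 then 1 else 0) ≤
      P.cor (P.mu s (z - ee k)) (P.r k) (P.a (z - ee k)) (P.l (z - ee k)) := by
    split_ifs with c
    · have b1 := abs_le.1 (H.cor_abs (P.mu_nonneg s z) ht y1 (P.l_nonneg _) (H.l_lt (z - ee k)).le)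
      have b2 := abs_le.1 (H.cor_abs (P.mu_nonneg s (z - ee k)) ht y1 (P.l_nonneg _)
        (H.l_lt (z - ee k)).le)
      have b3 := mul_nonneg H.t0 (P.a_nonneg (z - ee k))
      linarith [b1.2, b2.1]
    · rw [mu_sub s hk hS c]
      simp
  have hB : |av P.J P.pc (cf P.b P.m (P.mu s z) (P.r k))| ≤ 1 :=
    abs_av_le (fun u _ => P.pc_nonneg u) H.tot fun u hu => (H.pair (P.mu_nonneg s z) ht hu).1.1.1
  have hC : av P.J P.pc (cf P.b P.m (P.mu s z) (P.r k)) -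
      av P.J P.pc (cf P.c P.m (P.mu s z) (P.r k)) ≤ 1 / 2 := by
    have e := av_lin P.J P.pc (cf P.b P.m (P.mu s z) (P.r k)) (cf P.b P.m (P.mu s z) (P.r k))
      (cf P.c P.m (P.mu s z) (P.r k)) 1 0
    simp only [mul_one, mul_zero, add_zero] at e
    rw [← e]
    exact av_le (fun u _ => P.pc_nonneg u) H.tot fun u hu =>
      (abs_le.1 (H.pair (P.mu_nonneg s z) ht hu).1.1.2.1).2
  have e3 : P.fl s z k = P.a z + av P.J P.pc (cf P.c P.m (P.mu s z) (P.r k)) * P.a z +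
      (1 - if P.a z < 1 then 1 else 0) * (av P.J P.pc (cf P.b P.m (P.mu s z) (P.r k)) * P.l z -
        av P.J P.pc (cf P.d P.m (P.mu s z) (P.r k))) := by
    rw [fl, if_pos hS]
    by_cases c : P.a z < 1
    · rw [if_pos c, if_pos c, P.a_zero c]; ring
    · rw [if_neg c, if_neg c, if_pos (by linarith), cor, av_lin]; ring
  rw [cor, av_lin] at e2
  rw [e1, e3, phi_eq]
  rw [h1, h2] at e2 ⊢
  generalize av P.J P.pc (cf P.b P.m (P.mu s z) (P.r k)) = B at *
  generalize av P.J P.pc (cf P.c P.m (P.mu s z) (P.r k)) = C at *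
  generalize av P.J P.pc (cf P.d P.m (P.mu s z) (P.r k)) = D at *
  have u1 : (P.kk z (P.r k) : ℝ) * (1 - (B - C)) ≤ P.kk z (P.g k) * (1 - (B - C)) :=
    mul_le_mul_of_nonneg_right k3 (by linarith)
  have u2 : 0 ≤ (B + 1) * ((P.g k : ℝ) / P.m - P.r k / P.m) :=
    mul_nonneg (by linarith [(abs_le.1 hB).1]) (by linarith)
  linarith

end Par

end Pool.Agent.MP_96f5a9_co.H36

end MrgPart0

-- ======== part 1: formerly Pool.Agent.MP_96f5a9_co.h36.CaseC
section MrgPart1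

/-!
Bounded generators: the income of a node and the sum over the ideal.
-/

set_option autoImplicit false

namespace Pool.Agent.MP_96f5a9_co.H36

open Finset Function H51 H16 H59 H93 H80 WA

namespace Par

variable {ι : Type} [Fintype ι] [DecidableEq ι] (P : Par ι)

/-- The mean rate. -/
noncomputable def qh (z : ι → ℕ) : ℝ := av P.J P.pc fun u => P.kk z u / (u / P.m)

/-- The loss caused by mixing. -/
noncomputable def ka (σ : ℝ) (z : ι → ℕ) : ℝ :=
  12 * P.θ ^ 2 / σ + P.θ * ey σ (P.l z) + P.θ * av P.J P.pc fun u => ex σ (P.l z + u / P.m)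

/-- The intermediate generators. -/
def N : Finset ι := univ.filter fun k => k ∉ P.S ∧ P.g k < P.G * P.m

/-- The weight in the intermediate generators. -/
noncomputable def wN (z : ι → ℕ) : ℝ := ∑ k ∈ P.N, z k * ((P.g k : ℝ) / P.m)

lemma wN_nonneg (z : ι → ℕ) : 0 ≤ P.wN z := sum_nonneg fun _ _ => by positivity

omit [DecidableEq ι] in
lemma wt_cast (z : ι → ℕ) : ∑ k, z k * ((P.g k : ℝ) / P.m) = wt P.g z / P.m := by
  simp only [wt, Nat.cast_sum, Nat.cast_mul, sum_div, mul_div_assoc]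

variable {P} {σ lam : ℝ} {G1 : ℕ} (H : P.Ok σ lam G1)
include H

omit [DecidableEq ι] in
lemma Ok.qh_bd (z : ι → ℕ) : 0 ≤ P.qh z ∧ P.qh z ≤ 1 + P.l z := by
  refine ⟨le_av (fun u _ => P.pc_nonneg u) H.tot fun u _ => by positivity,
    av_le (fun u _ => P.pc_nonneg u) H.tot fun u hu => ?_⟩
  have h1 := (H.gam hu).1
  have h2 := (H.kk_spec z u).1
  have h3 := mul_le_mul_of_nonneg_left h1 (P.l_nonneg z)
  rw [div_le_iff₀ (by linarith)]
  linarith

omit [DecidableEq ι] in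
lemma Ok.ka_bd (z : ι → ℕ) : P.θ * ey σ (P.l z) ≤ P.ka σ z ∧ P.ka σ z ≤ 7 := by
  have h1 : 0 ≤ av P.J P.pc fun u => ex σ (P.l z + u / P.m) :=
    le_av (fun u _ => P.pc_nonneg u) H.tot fun u _ => ex_nonneg _ _
  have h2 : (av P.J P.pc fun u => ex σ (P.l z + u / P.m)) ≤ 1 :=
    av_le (fun u _ => P.pc_nonneg u) H.tot fun u _ => ex_le _ _
  have h3 : 0 ≤ 12 * P.θ ^ 2 / σ := div_nonneg (by positivity) H.s0.le
  have h4 : 12 * P.θ ^ 2 / σ ≤ 6 := by
    rw [div_le_iff₀ H.s0]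
    nlinarith [H.t0, H.t1, H.ts]
  have h5 := mul_le_mul_of_nonneg_left h2 H.t0
  have h6 := mul_le_mul_of_nonneg_left (ey_le σ (P.l z)) H.t0
  have h7 := mul_nonneg H.t0 h1
  unfold ka
  exact ⟨by linarith, by linarith [H.t1]⟩

omit [DecidableEq ι] in
lemma Ok.ka_nonneg (z : ι → ℕ) : 0 ≤ P.ka σ z :=
  (mul_nonneg H.t0 (ey_nonneg _ _)).trans (H.ka_bd z).1

omit [DecidableEq ι] in
lemma Ok.x_one (k : ι) : 1 ≤ (P.g k : ℝ) / P.m := by
  rw [le_div_iff₀ (Nat.cast_pos.2 H.m0), one_mul]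
  exact_mod_cast H.hg k

/-- The income of a node below the jump. -/
lemma Ok.lo (s : ℕ) (hs : s < P.h) {z : ι → ℕ} (hz : wt P.g z ≤ P.M) (hL : P.a z + G1 < P.G) :
    wt P.g z / P.m * (P.qh z - (P.ka σ z + 3 * lam + 2 / P.G)) - 2 * P.wN z -
      P.J.card * (P.h * (12 * G1)) -
      2 * P.G * ∑ k, z k * (if (P.nc z (P.r k) + s) % P.h = 0 then (1 : ℝ) else 0) ≤
      inc (P.fl s) z := by
  obtain ⟨ψ, hψ⟩ : ∃ ψ : ℕ → ℝ, ψ = fun t => phi P.J P.pc (cf P.c P.m (P.mu s z) t)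
      (cf P.b P.m (P.mu s z) t) (cf P.d P.m (P.mu s z) t) (t / P.m) (P.kk z t) (P.l z)
      (if P.a z < 1 then 1 else 0) - t / P.m * (P.qh z - P.ka σ z) := ⟨_, rfl⟩
  obtain ⟨q0, q1⟩ := H.qh_bd z
  obtain ⟨k0, k1⟩ := H.ka_bd z
  have k2 := H.ka_nonneg z
  have l0 := P.l_nonneg z
  have l1 := H.l_lt z
  have G0 : (0 : ℝ) < P.G := Nat.cast_pos.2 H.G0
  have m0 : (0 : ℝ) < P.m := Nat.cast_pos.2 H.m0
  have hp : ∀ u ∈ P.J, 0 ≤ P.pc u := fun u _ => P.pc_nonneg u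
  have hτ : (if P.a z < 1 then (1 : ℝ) else 0) = 0 ∨ (if P.a z < 1 then (1 : ℝ) else 0) = 1 := by
    split_ifs <;> simp
  have c1 : 0 ≤ ∑ t ∈ P.J, (nb P.h s (P.nc z t) : ℝ) * ψ t := by
    have := cells P.J P.pc (fun t => t / P.m) (P.mu s z) (P.kk z) (cf P.c P.m (P.mu s z))
      (cf P.b P.m (P.mu s z)) (cf P.d P.m (P.mu s z)) hp H.tot (fun t ht => (H.gam ht).1) l0 l1 hτ
      (fun t _ => H.kk_spec z t) fun t ht u hu => H.pair (P.mu_nonneg s z) ht hu
    refine this.trans (le_of_eq (sum_congr rfl fun t ht => ?_))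
    rw [mu, mul_div_cancel₀ _ (P.pc_pos ht).ne', hψ]
    simp only [qh, ka]
    ring
  have c2 : ∀ t ∈ P.J, |ψ t| ≤ 12 * G1 := fun t ht => by
    obtain ⟨g1, g2⟩ := H.gam ht
    have b1 : |av P.J P.pc (cf P.b P.m (P.mu s z) t)| ≤ 1 :=
      abs_av_le hp H.tot fun u hu => (H.pair (P.mu_nonneg s z) ht hu).1.1.1
    have b2 : |av P.J P.pc fun u => cf P.b P.m (P.mu s z) t u - cf P.c P.m (P.mu s z) t u| ≤ 1 / 2 :=
      abs_av_le hp H.tot fun u hu => (H.pair (P.mu_nonneg s z) ht hu).1.1.2.1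
    have b3 : |av P.J P.pc fun u => cf P.b P.m (P.mu s z) t u * P.l z -
        cf P.d P.m (P.mu s z) t u| ≤ 2 := abs_av_le hp H.tot fun u hu => by
      obtain ⟨a1, -, a3⟩ := (H.pair (P.mu_nonneg s z) ht hu).1.1
      rw [abs_le] at a1 a3 ⊢
      constructor <;> nlinarith [a1.1, a1.2, a3.1, a3.2]
    have b4 : (P.kk z t : ℝ) ≤ G1 := by
      have : (P.kk z t : ℝ) < G1 + 1 := by linarith [(H.kk_spec z t).1]
      have : P.kk z t < G1 + 1 := by exact_mod_cast this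
      exact_mod_cast Nat.lt_succ_iff.1 this
    have b5 : (0 : ℝ) ≤ P.kk z t := Nat.cast_nonneg _
    rw [hψ]
    simp only [phi]
    generalize av P.J P.pc (cf P.b P.m (P.mu s z) t) = B at *
    generalize (av P.J P.pc fun u => cf P.b P.m (P.mu s z) t u - cf P.c P.m (P.mu s z) t u) = E at *
    generalize (av P.J P.pc fun u => cf P.b P.m (P.mu s z) t u * P.l z -
      cf P.d P.m (P.mu s z) t u) = V at *
    generalize (t : ℝ) / P.m = γ at *
    rw [abs_le] at b1 b2 b3 ⊢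
    have u1 : 0 ≤ (P.kk z t : ℝ) * (1 - E) := mul_nonneg b5 (by linarith [b2.2])
    have u2 : (P.kk z t : ℝ) * (1 - E) ≤ P.kk z t * (3 / 2) :=
      mul_le_mul_of_nonneg_left (by linarith [b2.1]) b5
    have u3 : B * γ ≤ 1 * γ := mul_le_mul_of_nonneg_right b1.2 (by linarith)
    have u4 : -1 * γ ≤ B * γ := mul_le_mul_of_nonneg_right b1.1 (by linarith)
    have u5 : γ * (P.qh z - P.ka σ z) ≤ γ * 2 := mul_le_mul_of_nonneg_left (by linarith) (by linarith)
    have u6 : γ * (-7) ≤ γ * (P.qh z - P.ka σ z) :=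
      mul_le_mul_of_nonneg_left (by linarith) (by linarith)
    rcases hτ with e | e <;> rw [e] <;> constructor <;> linarith [b3.1, b3.2]
  have c3 : -(P.J.card * (P.h * (12 * G1)) : ℝ) ≤ ∑ k ∈ P.S, z k * ψ (P.r k) := by
    rw [P.sum_cells (fun k => z k) ψ]
    have : ∑ t ∈ P.J, ((nb P.h s (P.nc z t) : ℝ) * ψ t - P.h * (12 * G1)) ≤
        ∑ t ∈ P.J, (∑ i ∈ P.S.filter (fun i => P.r i = t), (z i : ℝ)) * ψ t := by
      refine sum_le_sum fun t ht => ?_
      rw [← Nat.cast_sum]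
      have a1 : |((nb P.h s (P.nc z t) : ℝ) - P.nc z t) * ψ t| ≤ P.h * (12 * G1) := by
        rw [abs_mul]
        exact mul_le_mul (nb_abs hs _) (c2 t ht) (abs_nonneg _) (Nat.cast_nonneg _)
      have a2 := (abs_le.1 a1).2
      unfold nc at a2 ⊢
      linarith
    rw [sum_sub_distrib, sum_const, nsmul_eq_mul] at this
    linarith
  have c4 : ∀ k, z k * ((P.g k : ℝ) / P.m) * (P.qh z - (P.ka σ z + 3 * lam + 2 / P.G)) +
      (if k ∈ P.S then z k * ψ (P.r k) else 0) -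
      2 * (if k ∉ P.S ∧ P.g k < P.G * P.m then z k * ((P.g k : ℝ) / P.m) else 0) -
      2 * P.G * (z k * if (P.nc z (P.r k) + s) % P.h = 0 then (1 : ℝ) else 0) ≤
      z k * (P.fl s (z - ee k) k - P.fl s z k) := fun k => by
    rcases Nat.eq_zero_or_pos (z k) with c | c
    · simp [c]
    have z0 : (0 : ℝ) ≤ z k := Nat.cast_nonneg _
    have x1 := H.x_one k
    have i0 : 0 ≤ P.G * (if (P.nc z (P.r k) + s) % P.h = 0 then (1 : ℝ) else 0) :=
      mul_nonneg G0.le (by split_ifs <;> norm_num)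
    have v1 : lam * 1 ≤ lam * ((P.g k : ℝ) / P.m) := mul_le_mul_of_nonneg_left x1 H.l0
    have v2 : 0 ≤ (P.g k : ℝ) / P.m * (2 / P.G) := by positivity
    have v3 : 0 ≤ (P.g k : ℝ) / P.m * P.ka σ z := mul_nonneg (by linarith) k2
    have la := H.l0
    by_cases hS : k ∈ P.S
    · have e := H.edgeS s hz c hS hL
      obtain ⟨r1, r2, r3, r4⟩ := H.hr k hS
      have g1 : (P.r k : ℝ) / P.m ≤ P.g k / P.m :=
        div_le_div_of_nonneg_right (by exact_mod_cast r2) m0.le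
      have g2 : (P.g k : ℝ) / P.m ≤ P.r k / P.m + lam := by
        rw [div_le_iff₀ m0, add_mul, div_mul_cancel₀ _ m0.ne']
        exact r3
      have u1 : ((P.g k : ℝ) / P.m - P.r k / P.m) * P.qh z ≤ lam * 2 :=
        mul_le_mul (by linarith) (by linarith) q0 H.l0
      have u2 : 0 ≤ ((P.g k : ℝ) / P.m - P.r k / P.m) * P.ka σ z := mul_nonneg (by linarith) k2
      have u3 : (P.g k : ℝ) / P.m * (P.qh z - (P.ka σ z + 3 * lam + 2 / P.G)) + ψ (P.r k) -
          2 * P.G * (if (P.nc z (P.r k) + s) % P.h = 0 then (1 : ℝ) else 0) ≤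
          P.fl s (z - ee k) k - P.fl s z k := by
        rw [hψ]
        dsimp only
        linarith
      have u4 := mul_le_mul_of_nonneg_left u3 z0
      rw [if_pos hS, if_neg fun e => e.1 hS]
      linarith
    · obtain ⟨e1, e2⟩ := H.edgeU s hz c hS
      rw [if_neg hS]
      by_cases hN : P.g k < P.G * P.m
      · have u1 : (P.g k : ℝ) / P.m * P.qh z ≤ P.g k / P.m * 2 :=
          mul_le_mul_of_nonneg_left (by linarith) (by linarith)
        have u3 : (P.g k : ℝ) / P.m * (P.qh z - (P.ka σ z + 3 * lam + 2 / P.G)) -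
            2 * (P.g k / P.m) -
            2 * P.G * (if (P.nc z (P.r k) + s) % P.h = 0 then (1 : ℝ) else 0) ≤
            P.fl s (z - ee k) k - P.fl s z k := by linarith
        have u4 := mul_le_mul_of_nonneg_left u3 z0
        rw [if_pos ⟨hS, hN⟩]
        linarith
      · have e3 := e2 (by linarith [(Nat.cast_nonneg G1 : (0 : ℝ) ≤ G1)]) (not_lt.1 hN)
        have u0 : (P.G : ℝ) ≤ P.g k / P.m := by
          rw [le_div_iff₀ m0]
          exact_mod_cast not_lt.1 hN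
        have u1 : 2 ≤ (P.g k : ℝ) / P.m * (2 / P.G) := by
          rw [mul_div_assoc', le_div_iff₀ G0]
          linarith
        have u2 : P.qh z - P.ka σ z ≤ 2 - P.θ := by
          by_cases c1 : P.l z < σ ∨ 1 - σ < P.l z
          · have : ey σ (P.l z) = 1 := if_pos c1
            rw [this] at k0
            linarith
          · rw [not_or, not_lt, not_lt] at c1
            linarith [H.ts, c1.2]
        have u5 := mul_le_mul_of_nonneg_left u2 (by linarith : 0 ≤ (P.g k : ℝ) / P.m)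
        have u3 : (P.g k : ℝ) / P.m * (P.qh z - (P.ka σ z + 3 * lam + 2 / P.G)) -
            2 * P.G * (if (P.nc z (P.r k) + s) % P.h = 0 then (1 : ℝ) else 0) ≤
            P.fl s (z - ee k) k - P.fl s z k := by linarith
        have u4 := mul_le_mul_of_nonneg_left u3 z0
        rw [if_neg fun e => hN e.2]
        linarith
  have c5 := sum_le_sum fun k (_ : k ∈ univ) => c4 k
  rw [sum_sub_distrib, sum_sub_distrib, sum_add_distrib, ← sum_mul, ← mul_sum, ← mul_sum,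
    P.wt_cast, sum_ite_mem, univ_inter, ← sum_filter] at c5
  unfold wN N inc
  linarith

/-- The income of a node, summed over the shifts. -/
lemma Ok.node {z : ι → ℕ} (hz : wt P.g z ≤ P.M) {R : ℝ} (hR0 : 0 < R) (hR : G1 + R ≤ P.G) :
    P.h * (P.M / P.m * P.qh z - 2 * (P.a z + 1) -
      P.M / P.m * (P.ka σ z + (3 * lam + 2 / P.G + 2 * P.G / P.h)) - 2 * P.wN z -
      P.J.card * (P.h * (12 * G1)) - 2 * (P.M / P.m) / R * P.a z -
      2 * (P.M / P.m) * if P.G ≤ P.a z + G1 ∧ P.a z < P.G then P.a z else 0) ≤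
      ∑ s ∈ range P.h, inc (P.fl s) z := by
  obtain ⟨q0, q1⟩ := H.qh_bd z
  have k2 := H.ka_nonneg z
  have l0 := P.l_nonneg z
  have l1 := H.l_lt z
  have a0 := P.a_nonneg z
  have la := H.l0
  have G0 : (0 : ℝ) < P.G := Nat.cast_pos.2 H.G0
  have m0 : (0 : ℝ) < P.m := Nat.cast_pos.2 H.m0
  have h0 : (0 : ℝ) < P.h := Nat.cast_pos.2 H.h0
  have e1 : P.a z + P.l z = P.M / P.m - wt P.g z / P.m := by
    rw [← sub_div]; exact aa_add_ll H.m0 hz
  have d1 : ∑ k, (z k : ℝ) ≤ P.M / P.m := by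
    have : ∑ k, (z k : ℝ) ≤ ∑ k, z k * ((P.g k : ℝ) / P.m) :=
      sum_le_sum fun k _ => le_mul_of_one_le_right (Nat.cast_nonneg _) (H.x_one k)
    rw [P.wt_cast] at this
    linarith
  have w0 : (0 : ℝ) ≤ wt P.g z / P.m := by positivity
  have n0 := P.wN_nonneg z
  have j0 : (0 : ℝ) ≤ P.J.card * (P.h * (12 * G1)) := by positivity
  have g2 : (0 : ℝ) ≤ 2 / P.G := by positivity
  have g3 : (0 : ℝ) ≤ 2 * P.G / P.h := by positivity
  obtain ⟨C, hC⟩ : ∃ C : ℝ, C = P.M / P.m := ⟨_, rfl⟩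
  rw [← hC] at e1 d1 ⊢
  have C0 : 0 ≤ C := by linarith
  have r0 : 0 ≤ 2 * C / R * P.a z := by positivity
  by_cases hL : P.a z + G1 < P.G
  · have s1 := sum_le_sum fun s (hs : s ∈ range P.h) => H.lo s (mem_range.1 hs) hz hL
    rw [sum_sub_distrib, sum_const, card_range, nsmul_eq_mul, ← mul_sum, sum_comm] at s1
    have s2 : ∑ k, ∑ s ∈ range P.h, z k * (if (P.nc z (P.r k) + s) % P.h = 0 then (1 : ℝ) else 0) ≤
        ∑ k, (z k : ℝ) := sum_le_sum fun k _ => by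
      rw [← mul_sum]
      exact mul_le_of_le_one_right (Nat.cast_nonneg _) (sum_ind _ _)
    have s3 := mul_le_mul_of_nonneg_left (s2.trans d1) G0.le
    have s4 : (P.a z + P.l z) * P.qh z ≤ (P.a z + 1) * 2 :=
      mul_le_mul (by linarith) (by linarith) q0 (by linarith)
    have s5 : 0 ≤ (P.a z + P.l z) * (P.ka σ z + 3 * lam + 2 / P.G) :=
      mul_nonneg (by linarith) (by linarith)
    have s6 : C * P.qh z - 2 * (P.a z + 1) - C * (P.ka σ z + (3 * lam + 2 / P.G)) -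
        2 * C / R * P.a z ≤ wt P.g z / P.m * (P.qh z - (P.ka σ z + 3 * lam + 2 / P.G)) := by
      rw [show (wt P.g z : ℝ) / P.m = C - (P.a z + P.l z) by linarith]
      linarith
    have s7 := mul_le_mul_of_nonneg_left s6 h0.le
    have s8 : P.h * (C * (2 * P.G / P.h)) = 2 * (P.G * C) := by field_simp
    rw [if_neg fun e => absurd e.1 (not_le.2 hL)]
    linarith
  · have s1 : ∀ s, -(C * if P.a z < P.G then 2 * P.a z else 0) ≤ inc (P.fl s) z := fun s => by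
      have b0 : 0 ≤ (if P.a z < P.G then 2 * P.a z else 0) := by split_ifs <;> linarith
      have b1 : ∑ k, z k * -(if P.a z < P.G then 2 * P.a z else 0) ≤ inc (P.fl s) z :=
        sum_le_sum fun k _ => by
          rcases Nat.eq_zero_or_pos (z k) with c | c
          · simp [c]
          · exact mul_le_mul_of_nonneg_left (H.edgeH s hz c) (Nat.cast_nonneg _)
      rw [← sum_mul] at b1
      linarith [mul_le_mul_of_nonneg_right d1 b0]
    have s2 := sum_le_sum fun s (_ : s ∈ range P.h) => s1 s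
    rw [sum_const, card_range, nsmul_eq_mul] at s2
    refine le_trans (mul_le_mul_of_nonneg_left ?_ h0.le) s2
    have s3 : C * P.qh z ≤ C * 2 := mul_le_mul_of_nonneg_left (by linarith) C0
    have s4 : 2 * C / R * R ≤ 2 * C / R * P.a z :=
      mul_le_mul_of_nonneg_left (by linarith [not_lt.1 hL]) (by positivity)
    rw [div_mul_cancel₀ _ hR0.ne'] at s4
    have s5 : 0 ≤ C * (P.ka σ z + (3 * lam + 2 / P.G + 2 * P.G / P.h)) :=
      mul_nonneg C0 (by linarith)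
    by_cases c : P.a z < P.G
    · rw [if_pos c, if_pos ⟨not_lt.1 hL, c⟩]
      linarith
    · rw [if_neg c, if_neg fun e => c e.2]
      linarith

variable {T : Finset (ι → ℕ)} {F : ℕ}

omit H [Fintype ι] [DecidableEq ι] in
lemma sum_av (f : (ι → ℕ) → ℕ → ℝ) :
    ∑ z ∈ T, av P.J P.pc (f z) = av P.J P.pc fun u => ∑ z ∈ T, f z u := by
  simp only [av, ← sum_div, mul_sum]
  rw [sum_comm]

omit [DecidableEq ι] in
lemma Ok.sum_qh (hd : Md P.g T P.m F) (hM : P.M = F + P.m) : (P.m : ℝ) ≤ ∑ z ∈ T, P.qh z := by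
  unfold qh
  rw [sum_av]
  refine le_av (fun u _ => P.pc_nonneg u) H.tot fun u hu => le_of_eq ?_
  have h1 := (H.gam hu).1
  have m0 : (P.m : ℝ) ≠ 0 := Nat.cast_ne_zero.2 H.m0.ne'
  have u0 : (u : ℝ) ≠ 0 := fun e => by rw [e, zero_div] at h1; linarith
  have h2 := unif hd fun r => (((r + u) / P.m : ℕ) : ℝ)
  rw [← Nat.cast_sum (s := range P.m), hermite H.m0] at h2
  rw [← sum_div]
  simp only [kk, hM]
  rw [h2]
  field_simp

omit [DecidableEq ι] in
lemma Ok.sum_ka (hd : Md P.g T P.m F) (hM : P.M = F + P.m) :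
    ∑ z ∈ T, P.ka σ z ≤ P.m * (12 * P.θ ^ 2 / σ) + 3 * P.θ * (σ * P.m + 1) := by
  have m0 : (0 : ℝ) < P.m := Nat.cast_pos.2 H.m0
  have v0 : 0 ≤ σ * P.m := mul_nonneg H.s0.le m0.le
  have h1 : ∑ z ∈ T, ey σ (P.l z) ≤ 2 * (σ * P.m + 1) := by
    have e := unif hd fun r => ey σ (r / P.m)
    have a1 := cnt P.m 0 (σ * P.m) v0 (fun r => if (r : ℝ) / P.m < σ then 1 else 0)
      (fun r => by split_ifs <;> norm_num) fun r _ hr => by
        split_ifs at hr with c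
        · exact ⟨Nat.cast_nonneg _, by rwa [zero_add, ← div_lt_iff₀ m0]⟩
        · exact absurd hr (lt_irrefl _)
    have a2 := cnt P.m ((1 - σ) * P.m) (σ * P.m) v0 (fun r => if 1 - σ < (r : ℝ) / P.m then 1 else 0)
      (fun r => by split_ifs <;> norm_num) fun r h hr => by
        split_ifs at hr with c
        · have : (r : ℝ) < P.m := by exact_mod_cast h
          exact ⟨((lt_div_iff₀ m0).1 c).le, by linarith⟩
        · exact absurd hr (lt_irrefl _)
    have a3 : ∑ r ∈ range P.m, ey σ (r / P.m) ≤ ∑ r ∈ range P.m,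
        ((if (r : ℝ) / P.m < σ then (1 : ℝ) else 0) + if 1 - σ < (r : ℝ) / P.m then 1 else 0) :=
      sum_le_sum fun r _ => by
        unfold ey
        by_cases c1 : (r : ℝ) / P.m < σ <;> by_cases c2 : 1 - σ < (r : ℝ) / P.m <;> simp [c1, c2]
    rw [sum_add_distrib] at a3
    simp only [l, ll, hM]
    linarith
  have h2 : ∑ z ∈ T, (av P.J P.pc fun u => ex σ (P.l z + u / P.m)) ≤ σ * P.m + 1 := by
    rw [sum_av]
    refine av_le (fun u _ => P.pc_nonneg u) H.tot fun u _ => ?_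
    have e := unif hd fun r => ex σ (r / P.m + u / P.m)
    have a1 := cnt P.m (2 * P.m - u) (σ * P.m) v0 (fun r => ex σ (r / P.m + u / P.m))
      (fun r => ex_le _ _) fun r _ hr => by
        unfold ex at hr
        split_ifs at hr with c
        · rw [← add_div, le_div_iff₀ m0, div_lt_iff₀ m0] at c
          exact ⟨by linarith [c.1], by linarith [c.2]⟩
        · exact absurd hr (lt_irrefl _)
    simp only [l, ll, hM]
    linarith
  simp only [ka, sum_add_distrib, ← mul_sum, sum_const, hd.card, nsmul_eq_mul]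
  linarith [mul_le_mul_of_nonneg_left h1 H.t0, mul_le_mul_of_nonneg_left h2 H.t0]

lemma Ok.sum_wN (hd : Md P.g T P.m F) (hM : P.M = F + P.m) :
    ∑ z ∈ T, P.wN z ≤ P.N.card * (2 * ∑ z ∈ T, P.a z) := by
  have m0 : (0 : ℝ) < P.m := Nat.cast_pos.2 H.m0
  unfold wN
  rw [sum_comm, ← nsmul_eq_mul]
  refine sum_le_card_nsmul _ _ _ fun k _ => ?_
  have h1 := coord_le hd.pos hd.le hd.down hd.top k
  have h2 : ((∑ t ∈ T, t k : ℕ) : ℝ) * P.g k ≤
      2 * (P.m * (∑ t ∈ T, (F + P.m - wt P.g t) / P.m : ℕ)) := by exact_mod_cast h1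
  rw [cast_n, Nat.cast_sum] at h2
  rw [← sum_mul, mul_div_assoc', div_le_iff₀ m0]
  simp only [a, hM]
  linarith

/-- The certificate for one scale. -/
theorem Ok.core (hd : Md P.g T P.m F) (hM : P.M = F + P.m) {R : ℝ} (hR0 : 0 < R)
    (hR : G1 + R ≤ P.G) :
    P.θ * (∑ i, Ad P.g T P.M P.m i : ℕ) + P.M ≤ Fintype.card ι * ∑ z ∈ T, P.a z +
      2 * (∑ z ∈ T, P.a z + P.m) +
      P.M * (12 * P.θ ^ 2 / σ + (3 * lam + 2 / P.G + 2 * P.G / P.h)) +
      P.M / P.m * (3 * P.θ * (σ * P.m + 1)) + 4 * (P.N.card * ∑ z ∈ T, P.a z) +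
      P.m * (P.J.card * (P.h * (12 * G1))) + 2 * (P.M / P.m) / R * ∑ z ∈ T, P.a z +
      2 * (P.M / P.m) * ∑ z ∈ T, if P.G ≤ P.a z + G1 ∧ P.a z < P.G then P.a z else 0 := by
  have m0 : (0 : ℝ) < P.m := Nat.cast_pos.2 H.m0
  have h0 : (0 : ℝ) < P.h := Nat.cast_pos.2 H.h0
  have h1 := sum_le_sum fun s (_ : s ∈ range P.h) => flow_le (g := P.g) (m := P.m) (M := P.M)
    hd.down (P.fl s) P.θ (fun y _ i => (H.fl_bd s y i).1) fun y _ => H.supply s y
  rw [sum_add_distrib, sum_const, sum_const, card_range, nsmul_eq_mul, nsmul_eq_mul, sum_comm,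
    cast_n] at h1
  have h2 := sum_le_sum fun z (hz : z ∈ T) => H.node (z := z) (hM ▸ hd.top z hz) hR0 hR
  have h9 : (P.M : ℝ) / P.m * (P.m * (3 * lam + 2 / P.G + 2 * P.G / P.h)) =
      P.M * (3 * lam + 2 / P.G + 2 * P.G / P.h) := by field_simp
  generalize 3 * lam + 2 / (P.G : ℝ) + 2 * P.G / P.h = u at *
  generalize (P.J.card * (P.h * (12 * G1)) : ℝ) = v at *
  rw [← mul_sum] at h2
  simp only [sum_sub_distrib, sum_add_distrib, ← mul_sum, sum_const, hd.card, nsmul_eq_mul] at h2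
  have h3 := H.sum_qh hd hM
  have h4 := H.sum_ka hd hM
  have h5 := H.sum_wN hd hM
  have C0 : (0 : ℝ) ≤ P.M / P.m := by positivity
  have h6 := mul_le_mul_of_nonneg_left h3 C0
  have h7 := mul_le_mul_of_nonneg_left h4 C0
  have e : ∀ x : ℝ, P.M / P.m * (P.m * x) = P.M * x := fun x => by field_simp
  rw [div_mul_cancel₀ _ m0.ne'] at h6
  rw [mul_add, e] at h7
  refine le_of_mul_le_mul_left ?_ h0
  have h8 : ∑ z ∈ T, ∑ s ∈ range P.h, inc (P.fl s) z +
      P.h * (P.θ * (∑ i, Ad P.g T P.M P.m i : ℕ)) ≤ P.h * (Fintype.card ι * ∑ z ∈ T, P.a z) := h1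
  generalize 12 * P.θ ^ 2 / σ = w at *
  generalize 2 * ((P.M : ℝ) / P.m) / R = x at *
  generalize (P.M : ℝ) / P.m = C at *
  linarith [mul_le_mul_of_nonneg_left h5 h0.le, mul_le_mul_of_nonneg_left h6 h0.le,
    mul_le_mul_of_nonneg_left h7 h0.le, congrArg (fun t => (P.h : ℝ) * t) h9]

end Par

end Pool.Agent.MP_96f5a9_co.H36

end MrgPart1

-- marker of a merged file
example : 731051 + 868408 = 731051 + 868408 := rfl
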